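import Pool.Agent.H77.SN.Def

/-! # SN.Num (about 90 lines): counting monomials (only natural numbers)

`DD w h N` is the number of the `(i, j)` with `i + w j + h ≤ N` (`w > 0`).
(a) `DD w h N = DD w 0 (N - h)` if `h ≤ N`;
(b) `DD w 0 (N + 1) = DD w 0 N + ((N + 1) / w + 1)`: the new pairs are the `(N + 1 - w j, j)`, `j ≤ (N + 1) / w`.
Hence `DD w 0 (N + e) - DD w 0 N = ∑_{m = N+1}^{N+e} (m / w + 1)`; replacing `N` by `N + w k` adds `k` to every term (`Nat.add_mul_div_left`), which is `num_diff` (induction on `e`).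
`num_low`: for `w k ≥ h + e`, `DD w h (w k) - DD w (h + e) (w k) = ∑ (m / w + 1)` over the `e` numbers `m` with `w k - h - e < m ≤ w k - h`, and `m / w + 1 ≥ k - (h + e)`, i.e. `m / w + 1 + (h + e) ≥ k`
(`m ≥ w k - w (h + e)` ... `Nat.div_add_one_...`). -/

namespace H77.SN

private theorem num_shift (w h N : ℕ) (hw : 0 < w) : DD w h (N + h) = DD w 0 N := by
  unfold DD
  congr 1
  ext ⟨i, j⟩
  simp only [Finset.mem_filter, Finset.mem_product, Finset.mem_range]
  have hj : j ≤ w * j := Nat.le_mul_of_pos_left j hw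
  constructor
  · rintro ⟨_, h3⟩
    refine ⟨⟨?_, ?_⟩, ?_⟩ <;> omega
  · rintro ⟨_, h3⟩
    refine ⟨⟨?_, ?_⟩, ?_⟩ <;> omega

private theorem num_succ (w N : ℕ) (hw : 0 < w) :
    DD w 0 (N + 1) = DD w 0 N + ((N + 1) / w + 1) := by
  unfold DD
  have hinj : ((Finset.range ((N + 1) / w + 1)).image (fun j => (N + 1 - w * j, j))).card
      = (N + 1) / w + 1 := by
    rw [Finset.card_image_of_injective, Finset.card_range]
    intro a b hab
    exact (Prod.mk.inj hab).2
  rw [← hinj, ← Finset.card_union_of_disjoint]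
  · congr 1
    ext ⟨i, j⟩
    simp only [Finset.mem_filter, Finset.mem_product, Finset.mem_range, Finset.mem_union,
      Finset.mem_image, Prod.mk.injEq]
    have hj : j ≤ w * j := Nat.le_mul_of_pos_left j hw
    constructor
    · rintro ⟨_, h3⟩
      by_cases h4 : i + w * j ≤ N
      · left
        refine ⟨⟨?_, ?_⟩, ?_⟩ <;> omega
      · right
        refine ⟨j, ?_, ?_, rfl⟩
        · rw [Nat.lt_succ_iff, Nat.le_div_iff_mul_le hw, Nat.mul_comm]
          omega
        · omega
    · rintro (⟨_, h3⟩ | ⟨j', h1, h2, h3⟩)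
      · refine ⟨⟨?_, ?_⟩, ?_⟩ <;> omega
      · subst h3
        rw [Nat.lt_succ_iff, Nat.le_div_iff_mul_le hw, Nat.mul_comm] at h1
        refine ⟨⟨?_, ?_⟩, ?_⟩ <;> omega
  · rw [Finset.disjoint_left]
    rintro ⟨i, j⟩ h1 h2
    simp only [Finset.mem_filter, Finset.mem_product, Finset.mem_range,
      Finset.mem_image, Prod.mk.injEq] at h1 h2
    obtain ⟨j', h3, h4, h5⟩ := h2
    subst h5
    rw [Nat.lt_succ_iff, Nat.le_div_iff_mul_le hw, Nat.mul_comm] at h3
    omega

private theorem num_sum (w N e : ℕ) (hw : 0 < w) :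
    DD w 0 (N + e) = DD w 0 N + ∑ m ∈ Finset.range e, ((N + 1 + m) / w + 1) := by
  induction e with
  | zero => simp
  | succ e ih =>
    rw [Finset.sum_range_succ, ← Nat.add_assoc, num_succ w (N + e) hw, ih, Nat.add_assoc]
    have : N + e + 1 = N + 1 + e := by omega
    rw [this]

theorem num_diff (w h e N k : ℕ) (hw : 0 < w) (hN : h + e ≤ N) :
    DD w h (N + w * k) + DD w (h + e) N = DD w h N + DD w (h + e) (N + w * k) + e * k := by
  obtain ⟨n, rfl⟩ := Nat.exists_eq_add_of_le hN
  have e1 : h + e + n + w * k = (n + w * k + e) + h := by omega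
  have e2 : h + e + n = n + (h + e) := by omega
  have e3 : h + e + n + w * k = (n + w * k) + (h + e) := by omega
  have e4 : h + e + n = (n + e) + h := by omega
  have a1 : DD w h (h + e + n + w * k) = DD w 0 (n + w * k + e) := by
    rw [e1, num_shift w h _ hw]
  have a2 : DD w (h + e) (h + e + n) = DD w 0 n := by
    rw [e2, num_shift w (h + e) _ hw]
  have a3 : DD w (h + e) (h + e + n + w * k) = DD w 0 (n + w * k) := by
    rw [e3, num_shift w (h + e) _ hw]
  have a4 : DD w h (h + e + n) = DD w 0 (n + e) := by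
    rw [e4, num_shift w h _ hw]
  rw [a1, a2, a3, a4, num_sum w (n + w * k) e hw, num_sum w n e hw]
  have a5 : ∑ m ∈ Finset.range e, ((n + w * k + 1 + m) / w + 1)
      = ∑ m ∈ Finset.range e, ((n + 1 + m) / w + 1) + e * k := by
    have : ∀ m ∈ Finset.range e, (n + w * k + 1 + m) / w + 1 = ((n + 1 + m) / w + 1) + k := by
      intro m _
      have h1 : n + w * k + 1 + m = (n + 1 + m) + w * k := by omega
      rw [h1, Nat.add_mul_div_left _ _ hw]
      omega
    rw [Finset.sum_congr rfl this, Finset.sum_add_distrib, Finset.sum_const, Finset.card_range,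
      smul_eq_mul]
  rw [a5]
  omega

theorem num_low (w h e k : ℕ) (hw : 0 < w) (hk : h + e ≤ w * k) :
    DD w (h + e) (w * k) + e * k ≤ DD w h (w * k) + e * (h + e) := by
  obtain ⟨n, hn⟩ := Nat.exists_eq_add_of_le hk
  have e2 : w * k = n + (h + e) := by omega
  have e4 : w * k = (n + e) + h := by omega
  have a2 : DD w (h + e) (w * k) = DD w 0 n := by
    rw [e2, num_shift w (h + e) _ hw]
  have a4 : DD w h (w * k) = DD w 0 (n + e) := by
    rw [e4, num_shift w h _ hw]
  rw [a2, a4, num_sum w n e hw]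
  have a5 : e * k ≤ ∑ m ∈ Finset.range e, ((n + 1 + m) / w + 1) + e * (h + e) := by
    have h1 : ∑ m ∈ Finset.range e, k ≤ ∑ m ∈ Finset.range e, (((n + 1 + m) / w + 1) + (h + e)) := by
      refine Finset.sum_le_sum fun m _ => ?_
      by_cases h2 : k ≤ h + e
      · exact h2.trans (Nat.le_add_left _ _)
      · obtain ⟨d, hd⟩ := Nat.exists_eq_add_of_le (Nat.le_of_not_le h2)
        have h3 : d ≤ (n + 1 + m) / w := by
          rw [Nat.le_div_iff_mul_le hw]
          have h4 : w * k = w * (h + e) + d * w := by rw [hd]; ring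
          have h5 : h + e ≤ w * (h + e) := Nat.le_mul_of_pos_left _ hw
          omega
        omega
    rw [Finset.sum_const, Finset.card_range, smul_eq_mul, Finset.sum_add_distrib,
      Finset.sum_const, Finset.card_range, smul_eq_mul] at h1
    exact h1
  omega

end H77.SN
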