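import Pool.Agent.H77.SN.Def

/-! # SN.Alg (about 70 lines)

Exchange: `R` a domain over the algebraically closed field `K`, `τ` transcendental over `K`, every element of `R` algebraic over `K[τ]`, `Φ ∈ R` not a constant.  Then every element of `R` is
algebraic over `K[Φ]`.

Proof.  `Φ` is transcendental over `K` (`K` algebraically closed, `R` a domain: an algebraic `Φ` would be a root of a product of linear factors, hence a constant).  There is `H ≠ 0` with
`H(τ, Φ) = 0`; exchanging the variables (`Polynomial.Bivariate.swap`, or coefficientwise) `H'(Φ, τ) = 0` with `H' ≠ 0`: `τ` is algebraic over `K[Φ]`.  In the field `L` of fractions of `R`: `L` is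
algebraic over `K(τ)`, `τ` algebraic over `K(Φ)`, so every `r ∈ R` is algebraic over `K(Φ)(τ)`, hence over `K(Φ)` (`IsAlgebraic.trans`, `Algebra.IsAlgebraic.trans`, or `IntermediateField.adjoin`), hence over `K[Φ]`
(`IsFractionRing.isAlgebraic_iff`).  Other ways: with `R` a `K[X]`-algebra by `aeval Φ`, `Alg1 K Φ` says `Algebra.IsAlgebraic K[X] R` (a `G ≠ 0`
with `G.eval₂ _ r = 0` is exactly an algebraic relation); or with transcendence degrees (`Algebra.trdeg`, `IsTranscendenceBasis`), or by eliminating `τ` with resultants. -/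

namespace H77.SN

open Polynomial

/-- `K[X] → K[Φ]` -/
noncomputable def alg1f {K R : Type} [Field K] [CommRing R] [Algebra K R] (Φ : R) :
    K[X] →ₐ[K] Algebra.adjoin K (Set.range (fun _ : Unit => Φ)) :=
  (aeval Φ : K[X] →ₐ[K] R).codRestrict _ (fun p => by
    have h1 : (aeval Φ p : R) ∈ (aeval Φ : K[X] →ₐ[K] R).range := ⟨p, rfl⟩
    rw [← Algebra.adjoin_singleton_eq_range_aeval] at h1
    rwa [Set.range_const])

theorem alg1f_coe {K R : Type} [Field K] [CommRing R] [Algebra K R] (Φ : R) (p : K[X]) :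
    ((alg1f Φ p : Algebra.adjoin K (Set.range (fun _ : Unit => Φ))) : R) = aeval Φ p := rfl

theorem alg1f_surj {K R : Type} [Field K] [CommRing R] [Algebra K R] (Φ : R) :
    Function.Surjective (alg1f (K := K) Φ) := by
  rintro ⟨y, hy⟩
  have hy' := hy
  rw [Set.range_const, Algebra.adjoin_singleton_eq_range_aeval] at hy'
  obtain ⟨p, hp⟩ := hy'
  exact ⟨p, Subtype.ext hp⟩

theorem alg1_aeval {K R : Type} [Field K] [CommRing R] [Algebra K R] (Φ r : R) (G : K[X][X]) :
    aeval r (G.map ((alg1f (K := K) Φ : K[X] →ₐ[K] _) :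
      K[X] →+* Algebra.adjoin K (Set.range (fun _ : Unit => Φ)))) = evA Φ r G := by
  rw [evA_apply, aeval_def, eval₂_map]
  rfl

theorem alg1_isAlg {K R : Type} [Field K] [CommRing R] [Algebra K R] {τ : R}
    (hτ0 : Transcendental K τ) (hτ : Alg1 K τ) :
    Algebra.IsAlgebraic (Algebra.adjoin K (Set.range (fun _ : Unit => τ))) R := by
  constructor
  intro r
  obtain ⟨G, hG, hG0⟩ := hτ r
  refine ⟨G.map ((alg1f (K := K) τ : K[X] →ₐ[K] _) : K[X] →+* _), ?_, ?_⟩
  · intro h
    apply hG
    have hinj : Function.Injective ((alg1f (K := K) τ : K[X] →ₐ[K] _) :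
        K[X] →+* Algebra.adjoin K (Set.range (fun _ : Unit => τ))) := by
      intro a b hab
      have h1 : aeval τ a = aeval τ b := by
        have := congrArg Subtype.val hab
        exact this
      exact (transcendental_iff_injective.mp hτ0) h1
    exact (Polynomial.map_eq_zero_iff hinj).mp h
  · rw [alg1_aeval, hG0]

theorem alg1_transc {K R : Type} [Field K] [IsAlgClosed K] [CommRing R] [IsDomain R] [Algebra K R]
    {Φ : R} (hΦ : ∀ c : K, Φ ≠ algebraMap K R c) : Transcendental K Φ := by
  rintro ⟨p, hp0, hp⟩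
  have hs := (IsAlgClosed.splits p).eq_prod_roots
  rw [hs, map_mul, map_multiset_prod, aeval_C] at hp
  rcases mul_eq_zero.mp hp with h1 | h1
  · have h2 : p.leadingCoeff = 0 :=
      (map_eq_zero_iff _ (algebraMap K R).injective).mp h1
    exact hp0 (leadingCoeff_eq_zero.mp h2)
  · rw [Multiset.prod_eq_zero_iff, Multiset.map_map, Multiset.mem_map] at h1
    obtain ⟨c, _, hc⟩ := h1
    simp only [Function.comp_apply, map_sub, aeval_X, aeval_C] at hc
    exact hΦ c (sub_eq_zero.mp hc)

theorem alg1 {K R : Type} [Field K] [IsAlgClosed K] [CommRing R] [IsDomain R] [Algebra K R] {τ : R}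
    (hτ0 : Transcendental K τ) (hτ : Alg1 K τ) {Φ : R} (hΦ : ∀ c : K, Φ ≠ algebraMap K R c) : Alg1 K Φ := by
  have hT := alg1_transc hΦ
  have h1 : AlgebraicIndependent K (fun _ : Unit => τ) := by
    rw [algebraicIndependent_unique_type_iff]
    exact hτ0
  have hA := alg1_isAlg hτ0 hτ
  have h2 : IsTranscendenceBasis K (fun _ : Unit => τ) :=
    h1.isTranscendenceBasis_iff_isAlgebraic.mpr hA
  have h3 := h2.cardinalMk_eq_trdeg
  have h4 : AlgebraicIndependent K (fun _ : Unit => Φ) := by
    rw [algebraicIndependent_unique_type_iff]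
    exact hT
  have h5 : IsTranscendenceBasis K (fun _ : Unit => Φ) :=
    h4.isTranscendenceBasis_of_trdeg_le_of_finite h3.symm.le
  have h6 := h5.isAlgebraic
  intro r
  obtain ⟨p, hp0, hp⟩ := h6.isAlgebraic r
  obtain ⟨G, hG⟩ := Polynomial.map_surjective _ (alg1f_surj (K := K) Φ) p
  refine ⟨G, ?_, ?_⟩
  · rintro rfl
    apply hp0
    rw [← hG]
    simp
  · rw [← alg1_aeval, ← hp, ← hG]
    rfl

end H77.SN
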