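import Pool.Agent.H77.SN.Def

/-! # SN.AlgT (about 50 lines)

`R` a domain, `τ ξ η ∈ R`, `g(τ, ξ) = 0`, `g ≠ 0`, `η² = f(τ, ξ)`, `τ` transcendental over `K`, and every element of `R` is of the form `a(τ, ξ) + η b(τ, ξ)`.  Then every element of `R` is algebraic over
`K[τ]`.

Proof.  Make `R` a `K[X]`-algebra by `aeval τ` (`(aeval τ).toAlgebra` with `letI`); `Alg1 K τ` says that every `r` is algebraic over `K[X]` (`IsAlgebraic K[X] r` is `∃ G ≠ 0, aeval r G = 0`, and `aeval r G = evA τ r G`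
by definition); `K[X]` is a domain and `R` is a domain, so the algebraic elements form a subalgebra (`IsAlgebraic.add`, `IsAlgebraic.mul`, `Subalgebra.algebraicClosure`); `ξ` is algebraic, `η² = f(τ, ξ)` is algebraic, so
`η` is (`IsAlgebraic.of_pow`, `isAlgebraic_iff...pow`). -/

namespace H77.SN

open Polynomial

theorem algT {K R : Type} [Field K] [CommRing R] [IsDomain R] [Algebra K R] {τ ξ η : R} {f g : K[X][X]}
    (hτ : Transcendental K τ) (hg : g ≠ 0) (h0 : evA τ ξ g = 0) (hη : η ^ 2 = evA τ ξ f)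
    (hgen : ∀ r : R, ∃ a b : K[X][X], r = evA τ ξ a + η * evA τ ξ b) : Alg1 K τ := by
  let _ : Algebra K[X] R := (aeval τ : K[X] →ₐ[K] R).toRingHom.toAlgebra
  have hinj : Function.Injective (algebraMap K[X] R) := transcendental_iff_injective.mp hτ
  have hfs : FaithfulSMul K[X] R := (faithfulSMul_iff_algebraMap_injective _ _).mpr hinj
  have hξ : IsAlgebraic K[X] ξ := ⟨g, hg, h0⟩
  have hev : ∀ q : K[X][X], IsAlgebraic K[X] (evA τ ξ q) := by
    intro q
    have h1 : ((aeval (⟨ξ, hξ⟩ : Subalgebra.algebraicClosure K[X] R) q :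
        Subalgebra.algebraicClosure K[X] R) : R) = evA τ ξ q :=
      (Subalgebra.aeval_coe _ _ _).symm
    rw [← h1]
    exact (aeval (⟨ξ, hξ⟩ : Subalgebra.algebraicClosure K[X] R) q).2
  have hη2 : IsAlgebraic K[X] η := by
    refine IsAlgebraic.of_pow (n := 2) (by norm_num) ?_
    rw [hη]
    exact hev f
  intro r
  obtain ⟨a, b, rfl⟩ := hgen r
  obtain ⟨G, h1, h2⟩ := (hev a).add (hη2.mul (hev b))
  exact ⟨G, h1, h2⟩

end H77.SN
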