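import Pool.Agent.H77.SN.Im
import Pool.Agent.H77.SN.Num

/-! # SN.Dat (about 130 lines; from `finrank_im`, `num_diff`, `num_low`, `PN_mul`): the filtration of the coordinate ring

Case distinction.
Case A: `evA τ ξ a + η * evA τ ξ b = 0` only if `g ∣ a` and `g ∣ b`.  Take `s = 2` and `F N = (PN K w 0 N).map (LL τ ξ 1) ⊔ (PN K w h N).map (LL τ ξ η)`.  The two pieces have intersection `⊥`, so
(`Submodule.finrank_sup_add_finrank_inf_eq`) `finrank (F N) = (DD w 0 N - DD w e N) + (DD w h N - DD w (h + e) N)`.  Products: `(a + η b)(a' + η b') = (a a' + f b b') + η (a b' + a' b)`, `f b b' ∈ PN K w (0 + h + h) (2h + N + N')`, i.e. in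
`PN K w 0 (N + N')` (a monomial with `i + w j + 2 h ≤ 2 h + N + N'`).  `frac`: `s = 1` (`F` exhausts `R`: every polynomial is in `PN K w h N` for large `N`).
Case B: there are `a`, `b` with `a(τ, ξ) + η b(τ, ξ) = 0`, not both divisible by `g`.  Then `g ∤ b` (otherwise `a(τ, ξ) = 0`, `g ∣ a`).  Take `s = 1`, `F N = (PN K w 0 N).map (LL τ ξ 1)`.  `frac`: for `r = a' + η b'` take `s = b(τ, ξ) ≠ 0`:
`s r = b a' - a b'` is a polynomial in `τ, ξ`.
The last two statements: `finrank_im` with `η := 1` and with `η` (`η ≠ 0` in case A, `R` a domain), `num_diff`, `num_low` (for `h := 0` and for `h`), `2 e^2 + e h = e (0 + e) + e (h + e)`. -/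

namespace H77.SN

open Polynomial

private theorem one_mem_PN (K : Type) [Field K] (w : ℕ) : (1 : K[X][X]) ∈ PN K w 0 0 := by
  intro i j hij
  have hj : j = 0 := by
    by_contra hj
    apply hij
    rw [coeff_one, if_neg (by simpa using hj), coeff_zero]
  subst hj
  have hi : i = 0 := by
    by_contra hi
    apply hij
    rw [coeff_one_zero, coeff_one, if_neg (by simpa using hi)]
  subst hi
  simp

private theorem PN_mono (K : Type) [Field K] (w h : ℕ) {m n : ℕ} (hmn : m ≤ n) :
    PN K w h m ≤ PN K w h n := fun _ hq i j hij => (hq i j hij).trans hmn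

private theorem PN_sub {K : Type} [Field K] {w h c N : ℕ} {q : K[X][X]}
    (hq : q ∈ PN K w (0 + (h + h)) (2 * h + N)) (hc : c = 0) : q ∈ PN K w c N := by
  intro i j hij
  have h1 := hq i j hij
  omega

private theorem exists_PN (K : Type) [Field K] (w h : ℕ) (q : K[X][X]) : ∃ N, q ∈ PN K w h N := by
  refine ⟨q.support.sup (fun j => (q.coeff j).natDegree) + w * q.natDegree + h, ?_⟩
  intro i j hij
  have hj : q.coeff j ≠ 0 := by
    intro h0
    apply hij
    rw [h0, coeff_zero]
  have h1 : j ≤ q.natDegree := le_natDegree_of_ne_zero hj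
  have h2 : i ≤ (q.coeff j).natDegree := le_natDegree_of_ne_zero hij
  have h3 : (q.coeff j).natDegree ≤ q.support.sup (fun j => (q.coeff j).natDegree) :=
    Finset.le_sup (f := fun j => (q.coeff j).natDegree) (mem_support_iff.2 hj)
  have h4 : w * j ≤ w * q.natDegree := Nat.mul_le_mul_left w h1
  omega

theorem dat {K R : Type} [Field K] [CommRing R] [IsDomain R] [Algebra K R] {τ ξ η : R} {f g : K[X][X]} {w h e : ℕ}
    (hw : 0 < w) (hg0 : g ≠ 0) (hg : g ∈ PN K w 0 e) (hg' : ∀ e' < e, g ∉ PN K w 0 e') (hf : f ∈ PN K w 0 (2 * h))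
    (hη : η ^ 2 = evA τ ξ f) (hker : ∀ q : K[X][X], evA τ ξ q = 0 ↔ g ∣ q)
    (hgen : ∀ r : R, ∃ a b : K[X][X], r = evA τ ξ a + η * evA τ ξ b) :
    ∃ (s : ℕ) (F : ℕ → Submodule K R), 1 ≤ s ∧ s ≤ 2 ∧ Fil K F ∧
      (∀ k N, h + e ≤ N → Module.finrank K (F (N + w * k)) ≤ Module.finrank K (F N) + s * e * k) ∧
      ∀ k, h + e ≤ w * k → s * e * k ≤ Module.finrank K (F (w * k)) + (2 * e ^ 2 + e * h) := by
  have hfin : ∀ (c N : ℕ) (θ : R), FiniteDimensional K ((PN K w c N).map (LL τ ξ θ)) := by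
    intro c N θ
    have := fin_PN K w c N hw
    exact inferInstance
  have hfr1 : ∀ N, Module.finrank K ((PN K w 0 N).map (LL τ ξ 1)) + DD w (0 + e) N = DD w 0 N :=
    fun N => finrank_im hw hg0 hg hg' (fun q => by rw [one_mul]; exact hker q) 0 N
  by_cases hA : ∀ a b : K[X][X], evA τ ξ a + η * evA τ ξ b = 0 → g ∣ a ∧ g ∣ b
  · have hη0 : η ≠ 0 := by
      intro h0
      have h1 := (hA 0 1 (by rw [h0, zero_mul, map_zero, add_zero])).2
      rw [← hker, map_one] at h1
      exact one_ne_zero h1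
    have hfr2 : ∀ N, Module.finrank K ((PN K w h N).map (LL τ ξ η)) + DD w (h + e) N
        = DD w h N := by
      intro N
      refine finrank_im hw hg0 hg hg' (fun q => ?_) h N
      rw [mul_eq_zero, or_iff_right hη0]
      exact hker q
    let F : ℕ → Submodule K R := fun N =>
      (PN K w 0 N).map (LL τ ξ 1) ⊔ (PN K w h N).map (LL τ ξ η)
    have hmem : ∀ {N : ℕ} {r : R}, r ∈ F N ↔ ∃ a ∈ PN K w 0 N, ∃ b ∈ PN K w h N,
        r = evA τ ξ a + η * evA τ ξ b := by
      intro N r
      constructor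
      · intro hr
        obtain ⟨u, hu, v, hv, rfl⟩ := Submodule.mem_sup.1 hr
        obtain ⟨a, ha, rfl⟩ := hu
        obtain ⟨b, hb, rfl⟩ := hv
        exact ⟨a, ha, b, hb, by rw [LL_apply, LL_apply, one_mul]⟩
      · rintro ⟨a, ha, b, hb, rfl⟩
        refine Submodule.mem_sup.2 ⟨_, ⟨a, ha, rfl⟩, _, ⟨b, hb, rfl⟩, ?_⟩
        rw [LL_apply, LL_apply, one_mul]
    have hdim : ∀ N, Module.finrank K (F N) + DD w (0 + e) N + DD w (h + e) N
        = DD w 0 N + DD w h N := by
      intro N
      have := hfin 0 N 1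
      have := hfin h N η
      have h1 := Submodule.finrank_sup_add_finrank_inf_eq ((PN K w 0 N).map (LL τ ξ 1))
        ((PN K w h N).map (LL τ ξ η))
      have h2 : (PN K w 0 N).map (LL τ ξ 1) ⊓ (PN K w h N).map (LL τ ξ η) = ⊥ := by
        rw [eq_bot_iff]
        rintro x ⟨⟨a, -, ha⟩, ⟨b, -, hb⟩⟩
        rw [LL_apply, one_mul] at ha
        rw [LL_apply] at hb
        have h3 := (hA a (-b) (by rw [map_neg, mul_neg, ha, hb, add_neg_cancel])).1
        rw [← hker, ha] at h3
        rw [h3]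
        exact zero_mem _
      rw [h2, finrank_bot, add_zero] at h1
      have h3 := hfr1 N
      have h4 := hfr2 N
      change Module.finrank K (F N) = _ at h1
      omega
    refine ⟨2, F, by norm_num, le_rfl, ⟨?_, ?_, ?_, ?_, ?_⟩, ?_, ?_⟩
    · exact hmem.2 ⟨1, one_mem_PN K w, 0, zero_mem _, by rw [map_one, map_zero, mul_zero, add_zero]⟩
    · intro m n hmn
      exact sup_le_sup (Submodule.map_mono (PN_mono K w 0 hmn))
        (Submodule.map_mono (PN_mono K w h hmn))
    · intro m n a b ha hb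
      obtain ⟨a1, ha1, a2, ha2, rfl⟩ := hmem.1 ha
      obtain ⟨b1, hb1, b2, hb2, rfl⟩ := hmem.1 hb
      refine hmem.2 ⟨a1 * b1 + f * (a2 * b2), ?_, a1 * b2 + a2 * b1, ?_, ?_⟩
      · exact add_mem (PN_mul ha1 hb1) (PN_sub (PN_mul hf (PN_mul ha2 hb2)) rfl)
      · have h1 := PN_mul ha1 hb2
        have h2 := PN_mul ha2 hb1
        rw [zero_add] at h1
        rw [add_zero] at h2
        exact add_mem h1 h2
      · rw [map_add, map_add, map_mul, map_mul, map_mul, map_mul, map_mul, ← hη]
        ring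
    · intro N
      have := hfin 0 N 1
      have := hfin h N η
      exact Submodule.finiteDimensional_sup _ _
    · intro r
      obtain ⟨a, b, rfl⟩ := hgen r
      obtain ⟨N1, h1⟩ := exists_PN K w 0 a
      obtain ⟨N2, h2⟩ := exists_PN K w h b
      refine ⟨0, max N1 N2, 1, ?_, one_ne_zero, ?_⟩
      · exact hmem.2 ⟨1, one_mem_PN K w, 0, zero_mem _,
          by rw [map_one, map_zero, mul_zero, add_zero]⟩
      · rw [one_mul]
        exact hmem.2 ⟨a, PN_mono K w 0 (le_max_left _ _) h1, b,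
          PN_mono K w h (le_max_right _ _) h2, rfl⟩
    · intro k N hN
      have h1 := hdim N
      have h2 := hdim (N + w * k)
      have h3 := num_diff w h e N k hw hN
      have h4 := num_diff w 0 e N k hw (by omega)
      have h5 : 2 * e * k = 2 * (e * k) := by ring
      omega
    · intro k hk
      have h1 := hdim (w * k)
      have h3 := num_low w h e k hw hk
      have h4 := num_low w 0 e k hw (by omega)
      have h5 : 2 * e * k = 2 * (e * k) := by ring
      have h6 : 2 * e ^ 2 + e * h = e * (0 + e) + e * (h + e) := by ring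
      omega
  · push Not at hA
    obtain ⟨a0, b0, hab, hnd⟩ := hA
    have hb0 : evA τ ξ b0 ≠ 0 := by
      intro h0
      have h1 : g ∣ a0 := by
        rw [← hker]
        rwa [h0, mul_zero, add_zero] at hab
      exact hnd h1 ((hker b0).1 h0)
    let F : ℕ → Submodule K R := fun N => (PN K w 0 N).map (LL τ ξ 1)
    have hmem : ∀ {N : ℕ} {r : R}, r ∈ F N ↔ ∃ a ∈ PN K w 0 N, r = evA τ ξ a := by
      intro N r
      constructor
      · rintro ⟨a, ha, rfl⟩
        exact ⟨a, ha, by rw [LL_apply, one_mul]⟩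
      · rintro ⟨a, ha, rfl⟩
        exact ⟨a, ha, by rw [LL_apply, one_mul]⟩
    have hdim : ∀ N, Module.finrank K (F N) + DD w (0 + e) N = DD w 0 N := hfr1
    refine ⟨1, F, le_rfl, by norm_num, ⟨?_, ?_, ?_, ?_, ?_⟩, ?_, ?_⟩
    · exact hmem.2 ⟨1, one_mem_PN K w, by rw [map_one]⟩
    · intro m n hmn
      exact Submodule.map_mono (PN_mono K w 0 hmn)
    · intro m n a b ha hb
      obtain ⟨a1, ha1, rfl⟩ := hmem.1 ha
      obtain ⟨b1, hb1, rfl⟩ := hmem.1 hb
      exact hmem.2 ⟨a1 * b1, PN_mul ha1 hb1, by rw [map_mul]⟩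
    · intro N
      exact hfin 0 N 1
    · intro r
      obtain ⟨a, b, rfl⟩ := hgen r
      obtain ⟨N1, h1⟩ := exists_PN K w 0 b0
      obtain ⟨N2, h2⟩ := exists_PN K w 0 (b0 * a - a0 * b)
      refine ⟨N1, N2, evA τ ξ b0, hmem.2 ⟨b0, h1, rfl⟩, hb0, hmem.2 ⟨_, h2, ?_⟩⟩
      rw [map_sub, map_mul, map_mul]
      linear_combination (evA τ ξ b) * hab
    · intro k N hN
      have h1 := hdim N
      have h2 := hdim (N + w * k)
      have h4 := num_diff w 0 e N k hw (by omega)
      have h5 : 1 * e * k = e * k := by ring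
      omega
    · intro k hk
      have h1 := hdim (w * k)
      have h4 := num_low w 0 e k hw (by omega)
      have h5 : 1 * e * k = e * k := by ring
      have h6 : e * (0 + e) ≤ 2 * e ^ 2 + e * h := by nlinarith [Nat.zero_le (e ^ 2), Nat.zero_le (e * h)]
      omega

end H77.SN
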