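import Pool.Agent.H77.SN.Emb

/-! # SN.Lift (about 50 lines; from `lift_abs`)

`lift_abs` for the valuation ring of a place `π` of `Om K`: `V = π.V` (a `ValuationSubring` of the algebraically closed field `Om K`, its fraction field is `Om K`), made a `K`-algebra by
`c ↦ ⟨cst c, _⟩` (`π.const`; use `letI`/`let` and `RingHom.toAlgebra`), `φ = π.φ` (a `K`-algebra homomorphism by `π.const`), `hφ` from `Place.isLocal`. -/

namespace H77.SN

open H68.BB

theorem lift {K R : Type} [Field K] [CommRing R] [IsDomain R] [Algebra K R] (π : Place K (Om K)) {l : Om K}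
    (hl : Rd π.V π.φ l 0) (ht : Transcendental K l) {Φ : R} (hΦ : Φ ≠ 0) (hA : Alg1 K Φ) (p : R →ₐ[K] K)
    (hp : p Φ = 0) : ∃ y : R →ₐ[K] Om K, y Φ = l ∧ ∀ r, Rd π.V π.φ (y r) (p r) := by
  let f : K →+* π.V :=
    { toFun := fun c => ⟨cst c, (π.const c).1⟩
      map_one' := Subtype.ext (map_one _)
      map_mul' := fun a b => Subtype.ext (map_mul _ a b)
      map_zero' := Subtype.ext (map_zero _)
      map_add' := fun a b => Subtype.ext (map_add _ a b) }
  letI : Algebra K π.V := f.toAlgebra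
  haveI : IsScalarTower K π.V (Om K) := IsScalarTower.of_algebraMap_eq fun c => rfl
  let φ : π.V →ₐ[K] K :=
    { π.φ with
      commutes' := fun c => (π.const c).2 }
  have hφ : ∀ v, φ v ≠ 0 → IsUnit v := by
    intro v hv
    haveI := π.isLocal
    exact (isUnit_map_iff π.φ v).1 (isUnit_iff_ne_zero.2 hv)
  obtain ⟨hm, h0⟩ := hl
  have ht' : Transcendental K (⟨l, hm⟩ : π.V) := by
    rw [← transcendental_algebraMap_iff (A := Om K) (FaithfulSMul.algebraMap_injective π.V (Om K))]
    exact ht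
  obtain ⟨y, hy, hyr⟩ := lift_abs (Ω := Om K) φ hφ h0 ht' hΦ hA p hp
  refine ⟨y, hy, fun r => ?_⟩
  obtain ⟨v, hv, hpv⟩ := hyr r
  rw [hv]
  exact ⟨v.2, hpv⟩

end H77.SN
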