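import Pool.Agent.H77.SN.Def

/-! # SN.Ring (about 110 lines): the coordinate ring of the curve `g(t, x) = 0`, `y² = f(t, x)` (one component of it)

`K` algebraically closed, `g ∈ K[t, x]` irreducible.  There are a domain `R` and `τ, ξ, η ∈ R` with `η² = f(τ, ξ)`, `q(τ, ξ) = 0` iff `g ∣ q`, `R = K[τ, ξ] + η K[τ, ξ]`, and
such that for every point `(t, x, y)` over `K` with `g(t, x) = 0`, `y² = f(t, x)` there is `p : R → K` with `p τ = t`, `p ξ = x`, `p η = ± y`.

Proof.  `A = AdjoinRoot (X ^ 2 - C f : K[X][X][X])`, finite and free over `P = K[X][X]` (monic polynomial: `AdjoinRoot.powerBasis'`, `(Polynomial.monic_X_pow_sub_C f two_ne_zero)`), so integral over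
`P`, and `P → A` is injective.  `(g)` is a prime ideal of `P` (`P` is a UFD, `irreducible_iff_prime`), so there is a prime ideal `Q` of `A` with `Q ∩ P = (g)` (lying over:
`Ideal.exists_ideal_over_prime_of_isIntegral` or `Ideal.exists_ideal_over_prime_of_isIntegral_of_isDomain`).
`R = A ⧸ Q` with the `K`-algebra structure from `P`; `τ, ξ, η` the classes of `C X`, `X`, `AdjoinRoot.root`.  Every element of `A` is `a + b η` (`AdjoinRoot.induction_on`, division with remainder by the monic
polynomial: `Polynomial.modByMonic`; `evA τ ξ q` is the class of `q` by uniqueness, `map_evA` or `Polynomial.induction_on`).  Points: `β : P ⧸ (g) → K` (evaluation at `(t, x)`); `R` is integral over `P ⧸ (g)` (or over `P`), there is a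
maximal ideal `M` of `R` over the maximal ideal `ker (evA t x)` of `P` (`Ideal.exists_ideal_over_maximal_of_isIntegral`; the kernel of `P → R` is `(g) ≤ ker (evA t x)`), `R ⧸ M` is a field, integral over `P ⧸ ker = K`, so it is `K`
(`IsAlgClosed.ringHom_bijective_of_isIntegral`, see `H68.BB.place_exists` for the same step); `p η ^ 2 = f(t, x) = y ^ 2` (`sq_eq_sq_iff_eq_or_eq_neg`). -/

namespace H77.SN

open Polynomial

private theorem ring_evA_id {K : Type} [Field K] (q : K[X][X]) :
    evA (K := K) (C X : K[X][X]) X q = q := by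
  rw [evA_eq_sum]
  have h : ∀ p : K[X], aeval (C X : K[X][X]) p = C p := by
    intro p
    have h1 := aeval_algHom_apply (CAlgHom : K[X] →ₐ[K] K[X][X]) (X : K[X]) p
    rw [aeval_X_left_apply] at h1
    exact h1
  simp only [h]
  exact q.sum_C_mul_X_pow_eq

theorem ring_ex {K : Type} [Field K] [IsAlgClosed K] (f g : K[X][X]) (hg : Irreducible g) :
    ∃ (R : Type) (_ : CommRing R) (_ : IsDomain R) (_ : Algebra K R) (τ ξ η : R), η ^ 2 = evA τ ξ f ∧
      (∀ q : K[X][X], evA τ ξ q = 0 ↔ g ∣ q) ∧ (∀ r : R, ∃ a b : K[X][X], r = evA τ ξ a + η * evA τ ξ b) ∧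
      ∀ t x y : K, evA t x g = 0 → y ^ 2 = evA t x f →
        ∃ p : R →ₐ[K] K, p τ = t ∧ p ξ = x ∧ (p η = y ∨ p η = -y) := by
  classical
  set F : K[X][X][X] := X ^ 2 - C f with hF
  have hmon : F.Monic := monic_X_pow_sub_C f two_ne_zero
  have hdeg : F.degree = 2 := degree_X_pow_sub_C (by norm_num) f
  have hfin : Module.Finite K[X][X] (AdjoinRoot F) := hmon.finite_adjoinRoot
  have hint : Algebra.IsIntegral K[X][X] (AdjoinRoot F) := Algebra.IsIntegral.of_finite _ _
  have hinj : Function.Injective (algebraMap K[X][X] (AdjoinRoot F)) :=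
    AdjoinRoot.of.injective_of_degree_ne_zero (by rw [hdeg]; norm_num)
  have hpr : (Ideal.span {g} : Ideal K[X][X]).IsPrime :=
    (Ideal.span_singleton_prime hg.ne_zero).mpr hg.prime
  obtain ⟨Q, -, hQp, hQ⟩ := Ideal.exists_ideal_over_prime_of_isIntegral (Ideal.span {g} : Ideal K[X][X])
    (⊥ : Ideal (AdjoinRoot F)) (by
      intro a ha
      rw [Ideal.mem_comap, Ideal.mem_bot] at ha
      have : a = 0 := hinj (by rw [ha, map_zero])
      rw [this]; exact Ideal.zero_mem _)
  have hmkE : ∀ q : K[X][X], evA (Ideal.Quotient.mk Q (AdjoinRoot.of F (C X)))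
      (Ideal.Quotient.mk Q (AdjoinRoot.of F X)) q = Ideal.Quotient.mk Q (AdjoinRoot.of F q) := by
    intro q
    have h1 := map_evA (K := K) ((Ideal.Quotient.mkₐ K Q).comp (IsScalarTower.toAlgHom K K[X][X] (AdjoinRoot F)))
      (C X : K[X][X]) X q
    rw [ring_evA_id] at h1
    exact h1.symm
  have hroot : (AdjoinRoot.root F) ^ 2 = AdjoinRoot.of F f := by
    have h1 := AdjoinRoot.eval₂_root F
    rw [hF, eval₂_sub, eval₂_X_pow, eval₂_C, sub_eq_zero] at h1
    exact h1
  refine ⟨AdjoinRoot F ⧸ Q, inferInstance, Ideal.Quotient.isDomain Q, inferInstance,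
    Ideal.Quotient.mk Q (AdjoinRoot.of F (C X)), Ideal.Quotient.mk Q (AdjoinRoot.of F X),
    Ideal.Quotient.mk Q (AdjoinRoot.root F), ?_, ?_, ?_, ?_⟩
  · rw [hmkE, ← map_pow, hroot]
  · intro q
    rw [hmkE, Ideal.Quotient.eq_zero_iff_mem, ← Ideal.mem_span_singleton, ← hQ, Ideal.mem_comap]
    rfl
  · intro r
    obtain ⟨a, rfl⟩ := Ideal.Quotient.mk_surjective r
    obtain ⟨p, rfl⟩ := AdjoinRoot.mk_surjective a
    have h1 : AdjoinRoot.mk F p = AdjoinRoot.mk F (p %ₘ F) := by
      conv_lhs => rw [← modByMonic_add_div p F]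
      rw [map_add, map_mul, AdjoinRoot.mk_self, zero_mul, add_zero]
    have h2 : (p %ₘ F).degree ≤ 1 := by
      have h3 := degree_modByMonic_lt p hmon
      rw [hdeg] at h3
      rw [degree_le_iff_coeff_zero]
      intro m hm
      refine coeff_eq_zero_of_degree_lt (lt_of_lt_of_le h3 ?_)
      have hm' : 1 < m := by exact_mod_cast hm
      have hm2 : 2 ≤ m := hm'
      exact_mod_cast hm2
    have h4 := eq_X_add_C_of_degree_le_one h2
    refine ⟨(p %ₘ F).coeff 0, (p %ₘ F).coeff 1, ?_⟩
    rw [hmkE, hmkE, ← map_mul, ← map_add, h1]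
    conv_lhs => rw [h4]
    congr 1
    rw [map_add, map_mul, AdjoinRoot.mk_C, AdjoinRoot.mk_C, AdjoinRoot.mk_X]
    ring
  · intro t x y hgt hy
    let ψ : K[X][X] →ₐ[K] K := evA t x
    have hsurj : Function.Surjective ψ := fun c => ⟨algebraMap K _ c, by rw [AlgHom.commutes]; rfl⟩
    have hkm : (RingHom.ker (ψ : K[X][X] →+* K)).IsMaximal := RingHom.ker_isMaximal_of_surjective _ hsurj
    have hkp : (RingHom.ker (ψ : K[X][X] →+* K)).IsPrime := hkm.isPrime
    obtain ⟨M, hQM, hMp, hM⟩ := Ideal.exists_ideal_over_prime_of_isIntegral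
      (RingHom.ker (ψ : K[X][X] →+* K)) Q (by
        rw [hQ, Ideal.span_le, Set.singleton_subset_iff]
        exact hgt)
    have hcomp : ∀ q : K[X][X], Ideal.Quotient.mk M (AdjoinRoot.of F q) =
        algebraMap K (AdjoinRoot F ⧸ M) (ψ q) := by
      intro q
      have h1 : q - algebraMap K K[X][X] (ψ q) ∈ RingHom.ker (ψ : K[X][X] →+* K) := by
        rw [RingHom.mem_ker]
        change ψ (q - algebraMap K K[X][X] (ψ q)) = 0
        rw [map_sub, AlgHom.commutes]
        exact sub_self _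
      rw [← hM, Ideal.mem_comap] at h1
      have h2 : Ideal.Quotient.mk M (AdjoinRoot.of F (q - algebraMap K K[X][X] (ψ q))) = 0 :=
        Ideal.Quotient.eq_zero_iff_mem.mpr h1
      rw [map_sub, map_sub, sub_eq_zero] at h2
      rw [h2]
      rfl
    have hint2 : (algebraMap K (AdjoinRoot F ⧸ M)).IsIntegral := by
      have h1 : ((algebraMap K (AdjoinRoot F ⧸ M)).comp (ψ : K[X][X] →+* K)).IsIntegral := by
        have h2 : (algebraMap K (AdjoinRoot F ⧸ M)).comp (ψ : K[X][X] →+* K) =
            (Ideal.Quotient.mk M).comp (AdjoinRoot.of F) := by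
          refine RingHom.ext fun q => ?_
          exact (hcomp q).symm
        rw [h2]
        refine RingHom.IsIntegral.trans _ _ ?_ ?_
        · exact hint.isIntegral
        · exact RingHom.isIntegral_of_surjective _ Ideal.Quotient.mk_surjective
      exact RingHom.IsIntegral.tower_top _ _ h1
    have hbij := IsAlgClosed.ringHom_bijective_of_isIntegral (algebraMap K (AdjoinRoot F ⧸ M)) hint2
    let e : K ≃ₐ[K] (AdjoinRoot F ⧸ M) := AlgEquiv.ofBijective (Algebra.ofId K (AdjoinRoot F ⧸ M)) hbij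
    let p : (AdjoinRoot F ⧸ Q) →ₐ[K] K := (e.symm : (AdjoinRoot F ⧸ M) →ₐ[K] K).comp (Ideal.Quotient.factorₐ K hQM)
    have hp : ∀ q : K[X][X], p (Ideal.Quotient.mk Q (AdjoinRoot.of F q)) = ψ q := by
      intro q
      change e.symm (Ideal.Quotient.factorₐ K hQM (Ideal.Quotient.mk Q (AdjoinRoot.of F q))) = ψ q
      have h1 : Ideal.Quotient.factorₐ K hQM (Ideal.Quotient.mk Q (AdjoinRoot.of F q)) = e (ψ q) := hcomp q
      rw [h1, AlgEquiv.symm_apply_apply]
    refine ⟨p, ?_, ?_, ?_⟩
    · rw [hp]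
      change evA t x (C X) = t
      rw [evA_C, aeval_X]
    · rw [hp]
      change evA t x X = x
      rw [evA_X]
    · rw [← sq_eq_sq_iff_eq_or_eq_neg, ← map_pow, ← map_pow, hroot, hp, hy]

end H77.SN
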