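import Pool.Agent.H77.SN.FinS
import Pool.Agent.H77.SN.Lift
import Pool.Agent.H77.SN.Alg
import Pool.Agent.H77.SN.AlgT
import Pool.Agent.H77.SN.Ring
import Pool.Agent.H77.SN.Dat

/-! # SN.Crv : many points of a curve of bounded weighted degree are a fibre of a pencil, up to boundedly many points

`f`, `g` polynomials in `t`, `x` of weighted degrees `≤ 2 h`, `≤ e` (`t` of weight 1, `x` of weight `w`), `g` irreducible and not a polynomial in `t`.  There is `m` between `A` and a bound depending only on `w, h, e, A`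
such that for any `m` points `(t i, x i, y i)` over `K` of the curve `g = 0`, `y² = f` with pairwise different `t i` there is a finite Galois stable set of points of the curve over `Ω = Om K` with at most `m + C` elements
(`C` depending only on `w, h, e`), which at every place with `t ↦ 0` has the reductions `(t i, x i, ± y i)`, `i < m`, and at every place with `t ↦ 1` has no integral point. -/

namespace H77.SN

open Polynomial H68.BB

/-- the number of the other points -/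
def CC (h e : ℕ) : ℕ := 2 * e ^ 2 + e * h + 1

/-- the bound for the number of points -/
def BB (h e A : ℕ) : ℕ := 2 * e * (A + CC h e + e + h)

/-- an element of an extension field of `K` which is algebraic over the algebraically closed field `K` is a constant -/
theorem const_of_alg {K Ω : Type} [Field K] [IsAlgClosed K] [Field Ω] [Algebra K Ω] {l : Ω}
    (hl : ¬ Transcendental K l) : ∃ c : K, algebraMap K Ω c = l := by
  have h1 : IsAlgebraic K l := by
    unfold Transcendental at hl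
    exact not_not.1 hl
  have h2 : IsIntegral K l := h1.isIntegral
  have h3 : Irreducible (minpoly K l) := minpoly.irreducible h2
  have h4 : (minpoly K l).degree = 1 := IsAlgClosed.degree_eq_one_of_irreducible K h3
  exact minpoly.mem_range_of_degree_eq_one K l h4

/-- the parameter `t / (1 - t)` of the pencil -/
noncomputable def lam (K : Type) [Field K] : Om K := tt K / (1 - tt K)

theorem one_sub_ne (K : Type) [Field K] : 1 - tt K ≠ 0 := by
  intro h
  apply tt_ne K 1
  exact (sub_eq_zero.1 h).symm.trans (map_one (algebraMap K (Om K))).symm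

theorem lam_tr (K : Type) [Field K] [IsAlgClosed K] : Transcendental K (lam K) := by
  by_contra h
  obtain ⟨c, hc⟩ := const_of_alg h
  have h1 := one_sub_ne K
  have h2 : cst c * (1 - tt K) = tt K := by
    change algebraMap K (Om K) c * (1 - tt K) = tt K
    rw [hc, lam, div_mul_cancel₀ _ h1]
  have h3 : tt K * (1 + cst c) = cst c := by linear_combination -h2
  by_cases hc1 : (1 + cst c : Om K) = 0
  · rw [hc1, mul_zero] at h3
    rw [← h3, add_zero] at hc1
    exact one_ne_zero hc1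
  · have h4 : tt K = cst (c / (1 + c)) := by
      change tt K = algebraMap K (Om K) _
      rw [map_div₀, map_add, map_one]
      rw [eq_div_iff hc1]
      exact h3
    exact tt_ne K _ h4

theorem lam_rd {K : Type} [Field K] (π : Place K (Om K)) (h : Rd π.V π.φ (tt K) 0) :
    Rd π.V π.φ (lam K) 0 := by
  have := π.isLocal
  have h1 : Rd π.V π.φ (1 - tt K) (1 - 0) := Rd.one.sub h
  have h2 := h.div h1 (by rw [sub_zero]; exact one_ne_zero)
  rw [zero_div] at h2
  exact h2

theorem lam_nm {K : Type} [Field K] (π : Place K (Om K)) (h : Rd π.V π.φ (tt K) 1) :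
    lam K ∉ π.V := by
  intro hm
  have h1 : Rd π.V π.φ (1 - tt K) (1 - 1) := Rd.one.sub h
  have h2 := (Rd.of_mem (φ := π.φ) hm).mul h1
  rw [sub_self, mul_zero, lam, div_mul_cancel₀ _ (one_sub_ne K)] at h2
  exact one_ne_zero (h.unique h2)

theorem lam_fix {K : Type} [Field K] (σ : Om K ≃ₐ[RatFunc K] Om K) : σ (lam K) = lam K := by
  have h1 : σ (tt K) = tt K := σ.commutes _
  rw [lam, map_div₀, map_sub, map_one, h1]

theorem aeval_mem {K : Type} [Field K] (π : Place K (Om K)) {t : Om K} (ht : t ∈ π.V) (p : K[X]) :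
    aeval t p ∈ π.V := by
  induction p using Polynomial.induction_on' with
  | add p q hp hq => rw [map_add]; exact π.V.add_mem _ _ hp hq
  | monomial n a =>
    rw [aeval_monomial]
    obtain ⟨h, _⟩ := π.const a
    exact π.V.mul_mem _ _ h (pow_mem ht n)

theorem evA_mem {K : Type} [Field K] (π : Place K (Om K)) {t x : Om K} (ht : t ∈ π.V) (hx : x ∈ π.V)
    (q : K[X][X]) : evA t x q ∈ π.V := by
  rw [evA_eq_sum, Polynomial.sum]
  refine sum_mem fun j _ => ?_
  exact π.V.mul_mem _ _ (aeval_mem π ht _) (pow_mem hx j)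

theorem exists_deg {K : Type} [Field K] {w e : ℕ} {g : K[X][X]} (hg : g ∈ PN K w 0 e) :
    ∃ e0 ≤ e, g ∈ PN K w 0 e0 ∧ ∀ e' < e0, g ∉ PN K w 0 e' := by
  classical
  have h : ∃ n, g ∈ PN K w 0 n := ⟨e, hg⟩
  exact ⟨Nat.find h, Nat.find_min' h hg, Nat.find_spec h, fun e' he' => Nat.find_min h he'⟩

theorem deg_pos {K : Type} [Field K] {w e : ℕ} (hw : 0 < w) {g : K[X][X]} (hg : g ∈ PN K w 0 e)
    (hgt : ∀ c : K[X], g ≠ C c) : 1 ≤ e := by
  by_contra he
  have he0 : e = 0 := by omega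
  subst he0
  apply hgt (g.coeff 0)
  ext j i
  by_cases hj : j = 0
  · subst hj
    rw [coeff_C_zero]
  · rw [coeff_C_of_ne_zero hj, coeff_zero]
    by_contra hne
    have h1 := hg i j hne
    have h2 : 0 < w * j := Nat.mul_pos hw (Nat.pos_of_ne_zero hj)
    omega

theorem tau_tr {K R : Type} [Field K] [CommRing R] [Algebra K R] {τ ξ : R} {g : K[X][X]}
    (hgt : ∀ c : K[X], g ≠ C c) (hker : ∀ q : K[X][X], evA τ ξ q = 0 ↔ g ∣ q) : Transcendental K τ := by
  rw [transcendental_iff]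
  intro p hp
  by_contra hp0
  have h1 : g ∣ C p := (hker (C p)).1 (by rw [evA_C]; exact hp)
  have h2 : g.natDegree ≤ (C p : K[X][X]).natDegree :=
    natDegree_le_of_dvd h1 (by rw [Ne, C_eq_zero]; exact hp0)
  rw [natDegree_C] at h2
  exact hgt _ (eq_C_of_natDegree_le_zero h2)

theorem exists_phi {K R : Type} [Field K] [CommRing R] [Algebra K R] (F : Submodule K R)
    [FiniteDimensional K F] {m : ℕ} (hm : m < Module.finrank K F) (p : Fin m → R →ₐ[K] K) :
    ∃ Φ ∈ F, Φ ≠ 0 ∧ ∀ i, p i Φ = 0 := by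
  let T : F →ₗ[K] (Fin m → K) := LinearMap.pi fun i => (p i).toLinearMap.domRestrict F
  have h1 : LinearMap.ker T ≠ ⊥ := LinearMap.ker_ne_bot_of_finrank_lt (by
    rw [Module.finrank_fin_fun]; exact hm)
  obtain ⟨Φ, hΦ, hΦ0⟩ := (Submodule.ne_bot_iff _).1 h1
  refine ⟨Φ, Φ.2, fun h => hΦ0 (Subtype.ext h), fun i => ?_⟩
  exact congrFun (LinearMap.mem_ker.1 hΦ) i

theorem curve (K : Type) [Field K] [IsAlgClosed K] (w h e A : ℕ) (hw : 0 < w) (f g : K[X][X])
    (hf : f ∈ PN K w 0 (2 * h)) (hg : g ∈ PN K w 0 e) (hgi : Irreducible g) (hgt : ∀ c : K[X], g ≠ C c) :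
    ∃ m, A ≤ m ∧ m ≤ BB h e A ∧ ∀ t x y : Fin m → K, Function.Injective t → (∀ i, evA (t i) (x i) g = 0) →
      (∀ i, y i ^ 2 = evA (t i) (x i) f) →
      ∃ S : Finset (Om K × Om K × Om K), S.card ≤ m + CC h e ∧ (∀ P ∈ S, P.2.2 ^ 2 = evA P.1 P.2.1 f) ∧
        (∀ σ : Om K ≃ₐ[RatFunc K] Om K, ∀ P ∈ S, (σ P.1, σ P.2.1, σ P.2.2) ∈ S) ∧
        (∀ π : Place K (Om K), Rd π.V π.φ (tt K) 0 → ∀ i, ∃ P ∈ S, Rd π.V π.φ P.1 (t i) ∧
          Rd π.V π.φ P.2.1 (x i) ∧ (Rd π.V π.φ P.2.2 (y i) ∨ Rd π.V π.φ P.2.2 (-y i))) ∧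
        ∀ π : Place K (Om K), Rd π.V π.φ (tt K) 1 → ∀ P ∈ S, ¬(P.1 ∈ π.V ∧ P.2.1 ∈ π.V ∧ P.2.2 ∈ π.V) := by
  classical
  obtain ⟨e0, he0, hge0, hgmin⟩ := exists_deg hg
  have hg0 : g ≠ 0 := hgi.ne_zero
  have he1 : 1 ≤ e0 := deg_pos hw hge0 hgt
  obtain ⟨R, _, _, _, τ, ξ, η, hη, hker, hgen, hpts⟩ := ring_ex f g hgi
  have hτ : Transcendental K τ := tau_tr hgt hker
  have hτA : Alg1 K τ := algT hτ hg0 ((hker g).2 dvd_rfl) hη hgen
  obtain ⟨s, F, hs1, hs2, hF, hdiff, hlow⟩ := dat hw hg0 hge0 hgmin hf hη hker hgen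
  set k := A + CC h e + e + h with hk
  have hsek : k ≤ s * e0 * k := by
    calc k = 1 * 1 * k := by ring
      _ ≤ s * e0 * k := Nat.mul_le_mul_right k (Nat.mul_le_mul hs1 he1)
  have hsek2 : s * e0 * k ≤ 2 * e * k := Nat.mul_le_mul_right k (Nat.mul_le_mul hs2 he0)
  have hkw : k ≤ w * k := Nat.le_mul_of_pos_left k hw
  obtain ⟨m, hm⟩ : ∃ m, m = s * e0 * k - CC h e := ⟨_, rfl⟩
  refine ⟨m, by omega, ?_, ?_⟩
  · unfold BB
    rw [← hk]
    omega
  intro t x y ht hgz hyf
  by_cases hm0 : m = 0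
  · refine ⟨∅, by simp, by simp, by simp, ?_, by simp⟩
    intro π _ i
    exact absurd i.2 (by omega)
  choose p hpτ hpξ hpη using fun i => hpts (t i) (x i) (y i) (hgz i) (hyf i)
  have hCC : 2 * e0 ^ 2 + e0 * h + 1 ≤ CC h e := by
    unfold CC
    have h1 : e0 ^ 2 ≤ e ^ 2 := Nat.pow_le_pow_left he0 2
    have h2 : e0 * h ≤ e * h := Nat.mul_le_mul_right h he0
    omega
  have hlow' := hlow k (by omega)
  have hfr : m < Module.finrank K (F (w * k)) := by omega
  have := hF.fin (w * k)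
  obtain ⟨Φ, hΦF, hΦ0, hΦp⟩ := exists_phi (F (w * k)) hfr p
  have hΦc : ∀ c : K, Φ ≠ algebraMap K R c := by
    intro c hc
    have h1 := hΦp ⟨0, by omega⟩
    rw [hc, AlgHom.commutes] at h1
    have h2 : c = 0 := h1
    rw [h2, map_zero] at hc
    exact hΦ0 hc
  have hA : Alg1 K Φ := alg1 hτ hτA hΦc
  obtain ⟨hSf, hSc⟩ := fin_S hF hΦF hΦ0 hA ⟨h + e0, fun N hN => hdiff k N hN⟩ (lam_tr K)
  refine ⟨hSf.toFinset.image fun y => (y τ, y ξ, y η), ?_, ?_, ?_, ?_, ?_⟩
  · refine Finset.card_image_le.trans ?_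
    rw [← Set.ncard_eq_toFinset_card _ hSf]
    omega
  · intro P hP
    obtain ⟨z, hz, rfl⟩ := Finset.mem_image.1 hP
    change z η ^ 2 = evA (z τ) (z ξ) f
    rw [← map_evA, ← hη, map_pow]
  · intro σ P hP
    obtain ⟨z, hz, rfl⟩ := Finset.mem_image.1 hP
    refine Finset.mem_image.2 ⟨((σ.restrictScalars K : Om K ≃ₐ[K] Om K) : Om K →ₐ[K] Om K).comp z, ?_, rfl⟩
    rw [Set.Finite.mem_toFinset] at hz ⊢
    change σ (z Φ) = lam K
    have hz' : z Φ = lam K := hz
    rw [hz', lam_fix]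
  · intro π hπ i
    obtain ⟨z, hz, hzr⟩ := lift π (lam_rd π hπ) (lam_tr K) hΦ0 hA (p i) (hΦp i)
    refine ⟨(z τ, z ξ, z η), Finset.mem_image.2 ⟨z, ?_, rfl⟩, ?_, ?_, ?_⟩
    · rw [Set.Finite.mem_toFinset]; exact hz
    · have := hzr τ; rwa [hpτ i] at this
    · have := hzr ξ; rwa [hpξ i] at this
    · rcases hpη i with h1 | h1
      · left; have := hzr η; rwa [h1] at this
      · right; have := hzr η; rwa [h1] at this
  · intro π hπ P hP hPm
    obtain ⟨z, hz, rfl⟩ := Finset.mem_image.1 hP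
    rw [Set.Finite.mem_toFinset] at hz
    have hz' : z Φ = lam K := hz
    apply lam_nm π hπ
    rw [← hz']
    obtain ⟨a, b, hab⟩ := hgen Φ
    rw [hab, map_add, map_mul, map_evA, map_evA]
    exact π.V.add_mem _ _ (evA_mem π hPm.1 hPm.2.1 a) (π.V.mul_mem _ _ hPm.2.2 (evA_mem π hPm.1 hPm.2.1 b))

end H77.SN
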