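import Pool.Agent.H68.BB.Plc
import Pool.Agent.H68.BB.Red

/-! # SN.Def : evaluation of polynomials in two variables, weighted degrees, filtrations (definitions and first facts, no sorry)

`K[X][X]` is the ring of polynomials `q(t, x)`: the INNER variable is `t`, the OUTER variable is `x`.
`evA t x q = q(t, x)`.  `PN K w h N`: the polynomials all whose monomials `t^i x^j` have `i + w j + h ≤ N`. -/

namespace H77.SN

open Polynomial

/-- evaluation `q(t, x)`, `t` for the inner and `x` for the outer variable -/
noncomputable def evA {K A : Type} [Field K] [CommRing A] [Algebra K A] (t x : A) : K[X][X] →ₐ[K] A :=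
  { eval₂RingHom ((aeval t : K[X] →ₐ[K] A) : K[X] →+* A) x with
    commutes' := fun c => by
      change eval₂ ((aeval t : K[X] →ₐ[K] A) : K[X] →+* A) x (C (C c)) = _
      rw [eval₂_C]
      simp }

theorem evA_apply {K A : Type} [Field K] [CommRing A] [Algebra K A] (t x : A) (q : K[X][X]) :
    evA t x q = q.eval₂ ((aeval t : K[X] →ₐ[K] A) : K[X] →+* A) x := rfl

@[simp] theorem evA_X {K A : Type} [Field K] [CommRing A] [Algebra K A] (t x : A) :
    evA (K := K) t x X = x := by rw [evA_apply, eval₂_X]

@[simp] theorem evA_C {K A : Type} [Field K] [CommRing A] [Algebra K A] (t x : A) (p : K[X]) :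
    evA t x (C p) = aeval t p := by rw [evA_apply, eval₂_C]; rfl

theorem map_evA {K A A' : Type} [Field K] [CommRing A] [Algebra K A] [CommRing A'] [Algebra K A']
    (y : A →ₐ[K] A') (t x : A) (q : K[X][X]) : y (evA t x q) = evA (y t) (y x) q := by
  rw [evA_apply, evA_apply, ← AlgHom.coe_toRingHom y, hom_eval₂]
  congr 1
  ext p
  · simp
  · simp

/-- the value as a double sum -/
theorem evA_eq_sum {K A : Type} [Field K] [CommRing A] [Algebra K A] (t x : A) (q : K[X][X]) :
    evA t x q = q.sum fun j p => aeval t p * x ^ j := by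
  rw [evA_apply, eval₂_eq_sum]; rfl

/-- every element of `R` is algebraic over `K[Φ]` (of interest if `Φ` is transcendental over `K`) -/
def Alg1 (K : Type) {R : Type} [Field K] [CommRing R] [Algebra K R] (Φ : R) : Prop :=
  ∀ r : R, ∃ G : K[X][X], G ≠ 0 ∧ evA Φ r G = 0

/-- the polynomials `q(t, x)` all whose monomials `t^i x^j` satisfy `i + w j + h ≤ N` -/
def PN (K : Type) [Field K] (w h N : ℕ) : Submodule K K[X][X] where
  carrier := {q | ∀ i j, (q.coeff j).coeff i ≠ 0 → i + w * j + h ≤ N}
  add_mem' := by
    intro a b ha hb i j hij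
    by_cases h1 : (a.coeff j).coeff i = 0
    · refine hb i j ?_
      intro h2
      apply hij
      rw [coeff_add, coeff_add, h1, h2, add_zero]
    · exact ha i j h1
  zero_mem' := by
    intro i j h
    simp at h
  smul_mem' := by
    intro c a ha i j hij
    refine ha i j ?_
    intro h2
    apply hij
    rw [coeff_smul, coeff_smul, h2, smul_zero]

theorem mem_PN {K : Type} [Field K] {w h N : ℕ} {q : K[X][X]} :
    q ∈ PN K w h N ↔ ∀ i j, (q.coeff j).coeff i ≠ 0 → i + w * j + h ≤ N := Iff.rfl

/-- the number of the monomials of `PN K w h N` -/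
def DD (w h N : ℕ) : ℕ :=
  ((Finset.range (N + 1) ×ˢ Finset.range (N + 1)).filter (fun p => p.1 + w * p.2 + h ≤ N)).card

/-- a filtration of a subring of `R` by finite dimensional spaces, such that every element of `R` is a quotient of two elements of the
subring -/
structure Fil (K : Type) {R : Type} [Field K] [CommRing R] [Algebra K R] (F : ℕ → Submodule K R) : Prop where
  one : (1 : R) ∈ F 0
  mono : Monotone F
  mul : ∀ {m n : ℕ} {a b : R}, a ∈ F m → b ∈ F n → a * b ∈ F (m + n)
  fin : ∀ N, FiniteDimensional K (F N)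
  frac : ∀ r : R, ∃ (N N' : ℕ) (s : R), s ∈ F N ∧ s ≠ 0 ∧ s * r ∈ F N'

end H77.SN
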