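import Mathlib

/-! # SN.Indep (MATHLIB only, about 60 lines)

Distinct homomorphisms are linearly independent, already on a large finite dimensional piece.  `F` is an increasing filtration of a
subring of `R`, `y i` (`i < m`) algebra homomorphisms `R → Ω`, pairwise different on the union of the `F N`.  Then for all large `N`
the restrictions of the `y i` to `F N` are linearly independent over `Ω`.

Proof.  The union `B` of the `F N` is a submonoid of `R` (under multiplication), and the restrictions of the `y i` to `B` are pairwise different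
monoid homomorphisms `B → Ω`, so they are linearly independent over `Ω` in the space of functions (Dedekind: `linearIndependent_monoidHom`).  Let `I N` be
the subspace of the `c : Fin m → Ω` with `∑ c i * y i b = 0` for all `b ∈ F N`.  The `I N` decrease and `⋂ I N = 0`; a
decreasing sequence of subspaces of `Fin m → Ω` becomes stationary (`IsArtinian.monotone_stabilizes` with the order dual, or choose `N` with the
least `finrank`), so `I N = ⊥` for all `N ≥ N0`.  (`Fintype.linearIndependent_iff`.) -/

namespace H77.SN

theorem indep {K Ω R : Type} [Field K] [Field Ω] [Algebra K Ω] [CommRing R] [Algebra K R] (F : ℕ → Submodule K R)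
    (h1 : (1 : R) ∈ F 0) (hmono : Monotone F)
    (hmul : ∀ {m n : ℕ} {a b : R}, a ∈ F m → b ∈ F n → a * b ∈ F (m + n)) {m : ℕ} (y : Fin m → R →ₐ[K] Ω)
    (hy : ∀ i j, i ≠ j → ∃ N, ∃ b ∈ F N, y i b ≠ y j b) :
    ∃ N0, ∀ N ≥ N0, ∀ c : Fin m → Ω, (∀ b ∈ F N, ∑ i, c i * y i b = 0) → ∀ i, c i = 0 := by
  classical
  set B : Submonoid R :=
    { carrier := {b | ∃ N, b ∈ F N}
      mul_mem' := by
        rintro a b ⟨M, ha⟩ ⟨N, hb⟩
        exact ⟨M + N, hmul ha hb⟩
      one_mem' := ⟨0, h1⟩ } with hB
  set f : Fin m → (B →* Ω) := fun i => ((y i : R →* Ω)).comp B.subtype with hf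
  have hfinj : Function.Injective f := by
    intro i j hij
    by_contra hne
    obtain ⟨N, b, hb, hbne⟩ := hy i j hne
    exact hbne (congrArg (fun g : B →* Ω => g ⟨b, N, hb⟩) hij)
  have hli : LinearIndependent Ω (fun i => (f i : B → Ω)) :=
    (linearIndependent_monoidHom B Ω).comp f hfinj
  rw [Fintype.linearIndependent_iff] at hli
  set I : ℕ → Submodule Ω (Fin m → Ω) := fun N =>
    { carrier := {c | ∀ b ∈ F N, ∑ i, c i * y i b = 0}
      add_mem' := by
        intro c d hc hd b hb
        simp only [Pi.add_apply, add_mul, Finset.sum_add_distrib]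
        rw [hc b hb, hd b hb, add_zero]
      zero_mem' := by
        intro b _
        simp
      smul_mem' := by
        intro r c hc b hb
        simp only [Pi.smul_apply, smul_eq_mul, mul_assoc]
        rw [← Finset.mul_sum, hc b hb, mul_zero] } with hI
  have hanti : ∀ M N, M ≤ N → I N ≤ I M := by
    intro M N hMN c hc b hb
    exact hc b (hmono hMN hb)
  obtain ⟨N0, hN0⟩ := IsArtinian.monotone_stabilizes
    (⟨fun N => OrderDual.toDual (I N), fun M N h => hanti M N h⟩ :
      ℕ →o (Submodule Ω (Fin m → Ω))ᵒᵈ)
  refine ⟨N0, fun N hN c hc => ?_⟩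
  have hcN : c ∈ I N := hc
  have hst : ∀ M, c ∈ I M := by
    intro M
    have hN' : I N0 = I N := OrderDual.toDual.injective (hN0 N hN)
    have hc0 : c ∈ I N0 := hN' ▸ hcN
    rcases le_total N0 M with h | h
    · have hM : I N0 = I M := OrderDual.toDual.injective (hN0 M h)
      exact hM ▸ hc0
    · exact hanti M N0 h hc0
  refine hli c ?_
  funext b
  obtain ⟨b, M, hb⟩ := b
  have := hst M b hb
  simpa [Finset.sum_apply, hf] using this

end H77.SN
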