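import Pool.Agent.H77.SN.Surj
import Pool.Agent.H77.SN.Indep
import Pool.Agent.H77.SN.Def

/-! # SN.Count (about 60 lines; from `surj`, `indep`)

`F` a filtration of a subring of the domain `R` by finite dimensional spaces, `Φ ∈ F n`, `Φ ≠ 0`, `l ∈ Ω` transcendental over `K`; `y i` (`i < m`)
homomorphisms `R → Ω` with `y i Φ = l`, pairwise different on the union of the `F N`; `dim F (N + n) ≤ dim F N + c` for all large `N`.  Then `m ≤ c`.

Proof.  Take `N` large.  `f : F N → F (N + n)`, `b ↦ Φ b` (injective, `R` is a domain) and `g : F N → F (N + n)` the inclusion.  By `surj` the `Ω`-linear map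
`T : (F (N + n) →ₗ[K] Ω) → (F N →ₗ[K] Ω)`, `ψ ↦ ψ ∘ f - l • ψ ∘ g` is surjective.  `finrank Ω (X →ₗ[K] Ω) = finrank K X`
(`Module.finrank_linearMap`, or through a basis), so `finrank Ω (ker T) = finrank K (F (N+n)) - finrank K (F N) ≤ c`
(`LinearMap.finrank_range_add_finrank_ker`).  The restrictions of the `y i` to `F (N + n)` lie in `ker T` and are linearly independent over `Ω` by `indep`; so
`m ≤ finrank Ω (ker T) ≤ c` (`LinearIndependent.fintype_card_le_finrank`). -/

namespace H77.SN

theorem count {K Ω R : Type} [Field K] [Field Ω] [Algebra K Ω] [CommRing R] [IsDomain R] [Algebra K R]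
    {F : ℕ → Submodule K R} (hF : Fil K F) {n c : ℕ} {Φ : R} (hΦ : Φ ∈ F n) (hΦ0 : Φ ≠ 0)
    (hc : ∃ N1, ∀ N ≥ N1, Module.finrank K (F (N + n)) ≤ Module.finrank K (F N) + c) {l : Ω}
    (hl : Transcendental K l) {m : ℕ} (y : Fin m → R →ₐ[K] Ω) (hyΦ : ∀ i, y i Φ = l)
    (hy : ∀ i j, i ≠ j → ∃ N, ∃ b ∈ F N, y i b ≠ y j b) : m ≤ c := by
  classical
  obtain ⟨N0, hN0⟩ := indep F hF.one hF.mono (fun ha hb => hF.mul ha hb) y hy
  obtain ⟨N1, hN1⟩ := hc
  set N := max N0 N1 with hNdef
  have hNN0 : N0 ≤ N := le_max_left _ _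
  have hNN1 : N1 ≤ N := le_max_right _ _
  let _ : FiniteDimensional K (F N) := hF.fin N
  let _ : FiniteDimensional K (F (N + n)) := hF.fin (N + n)
  have hmulΦ : ∀ b ∈ F N, Φ * b ∈ F (N + n) := by
    intro b hb
    have := hF.mul hb hΦ
    rwa [mul_comm] at this
  let f : F N →ₗ[K] F (N + n) :=
    { toFun := fun b => ⟨Φ * b.1, hmulΦ b.1 b.2⟩
      map_add' := fun a b => by ext; simp [mul_add]
      map_smul' := fun a b => by ext; simp }
  let g : F N →ₗ[K] F (N + n) := Submodule.inclusion (hF.mono (Nat.le_add_right N n))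
  have hfinj : Function.Injective f := by
    intro a b hab
    have h1 : Φ * a.1 = Φ * b.1 := congrArg Subtype.val hab
    exact Subtype.ext (mul_left_cancel₀ hΦ0 h1)
  let T : (F (N + n) →ₗ[K] Ω) →ₗ[Ω] (F N →ₗ[K] Ω) :=
    { toFun := fun ψ => ψ.comp f - l • ψ.comp g
      map_add' := fun a b => by
        ext x
        simp only [LinearMap.sub_apply, LinearMap.comp_apply, LinearMap.add_apply, LinearMap.smul_apply,
          smul_eq_mul]
        ring
      map_smul' := fun a b => by
        ext x
        simp only [LinearMap.sub_apply, LinearMap.comp_apply, LinearMap.smul_apply,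
          smul_eq_mul, RingHom.id_apply]
        ring }
  have hTsurj : Function.Surjective T := by
    intro θ
    obtain ⟨ψ, hψ⟩ := surj f g hfinj hl θ
    exact ⟨ψ, by ext x; exact hψ x⟩
  have hY : Module.finrank Ω (F (N + n) →ₗ[K] Ω) = Module.finrank K (F (N + n)) :=
    Module.finrank_linearMap_self K Ω _
  have hX : Module.finrank Ω (F N →ₗ[K] Ω) = Module.finrank K (F N) :=
    Module.finrank_linearMap_self K Ω _
  have hker := LinearMap.finrank_range_add_finrank_ker T
  rw [LinearMap.range_eq_top.2 hTsurj, finrank_top, hY, hX] at hker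
  have hle := hN1 N hNN1
  have hkc : Module.finrank Ω (LinearMap.ker T) ≤ c := by omega
  let z : Fin m → LinearMap.ker T := fun i =>
    ⟨(y i).toLinearMap.comp (F (N + n)).subtype, by
      rw [LinearMap.mem_ker]
      ext x
      change y i (Φ * x.1) - l * y i x.1 = 0
      rw [map_mul, hyΦ i, sub_self]⟩
  have hz : LinearIndependent Ω z := by
    refine (Fintype.linearIndependent_iff (ι := Fin m) (R := Ω) (v := z)).2 fun a ha => ?_
    refine hN0 (N + n) (le_trans hNN0 (Nat.le_add_right N n)) a ?_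
    intro b hb
    have h1 := congrArg (fun w : LinearMap.ker T => (w : F (N + n) →ₗ[K] Ω) ⟨b, hb⟩) ha
    simpa [z] using h1
  have hcard := hz.fintype_card_le_finrank
  rw [Fintype.card_fin] at hcard
  exact hcard.trans hkc

end H77.SN
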