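import Pool.Agent.H77.SN.Pr
import Pool.Agent.H77.SN.Def

/-! # SN.Emb (about 100 lines; from `prime_ex`)

Lifting a homomorphism: `V` a valuation ring with fraction field `Ω` algebraically closed, `φ : V → K` the residue map, `l ∈ V` with `φ l = 0`, transcendental over `K`;
`R` a domain, all of whose elements are algebraic over `K[Φ]`, `Φ ≠ 0`.  Every `p : R → K` with `p Φ = 0` lifts to `y : R → Ω` with `y Φ = l`, all `y r ∈ V`, `φ (y r) = p r`.

Proof.  `q` from `prime_ex`, `D = (V ⊗ R) ⧸ q`, a domain; `V → D` is injective (no `v ⊗ 1`, `v ≠ 0`, in `q`).  In `D` the image of `Φ` is `l`, and `D` is algebraic over `V`: `D`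
is generated as a ring by `V` and the images `r'` of `r ∈ R`; for `r` take `G ≠ 0` with `evA Φ r G = 0`: then `∑_j (G.coeff j)(l) r'^j = 0`
in `D`, and the polynomial over `V` with the coefficients `(G.coeff j)(l)` is not zero since `l` is transcendental over `K`.  (Sums and products of algebraic elements
over a domain are algebraic: `IsAlgebraic.add`, `IsAlgebraic.mul`.)  `Ω` is a fraction field of `V` and algebraically closed, so there is a `V`-algebra homomorphism `z : D → Ω`
(`IsAlgClosed.lift`, needs `Algebra.IsAlgebraic V D` and `V → D` injective / torsion free).  `z` is injective (the kernel is a prime ideal of the algebraic extension `D` of the domain `V` which meets `V` in `0`; an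
element `d ≠ 0` of it would have a nonzero multiple in `V`: `IsAlgebraic.exists_nonzero_eq_adjoin_mul`/`exists_nonzero_coeff...`).  Claim: `z d ∈ V` for all `d`.  Otherwise
(`ValuationRing.isInteger_or_isInteger`) `(z d)⁻¹ = v ∈ V`, not a unit, so `φ v = 0`; `v d` and `1` have the same image under `z`, so
`v d = 1` in `D`; the map `ψ' : D → K` induced by `productMap φ p` (`Ideal.Quotient.lift`) gives `0 = φ v * ψ' d = 1`.
So `z d = v` with `v ∈ V`, then `d = v` in `D` (injectivity), and `ψ' d = φ v`.  Let `y r = z (1 ⊗ r)`. -/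

namespace H77.SN

open TensorProduct

open Polynomial in
private theorem eb_alg {K V D : Type} [Field K] [CommRing V] [Algebra K V] [CommRing D]
    [Algebra K D] [Algebra V D] [IsScalarTower K V D] {l : V} (ht : Transcendental K l) (d : D)
    {G : K[X][X]} (hG : G ≠ 0) (h : evA (algebraMap V D l) d G = 0) : IsAlgebraic V d := by
  have hinj : Function.Injective ((aeval l : K[X] →ₐ[K] V) : K[X] →+* V) := by
    intro a b hab
    by_contra hne
    refine ht ⟨a - b, sub_ne_zero.mpr hne, ?_⟩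
    rw [map_sub]
    exact sub_eq_zero.mpr hab
  refine ⟨G.map ((aeval l : K[X] →ₐ[K] V) : K[X] →+* V), ?_, ?_⟩
  · exact (Polynomial.map_ne_zero_iff hinj).mpr hG
  · rw [evA_apply] at h
    rw [aeval_def, eval₂_map, ← h]
    congr 1
    ext c
    · simp only [RingHom.comp_apply, RingHom.coe_coe, aeval_C]
      exact (IsScalarTower.algebraMap_apply K V D c).symm
    · simp only [RingHom.comp_apply, RingHom.coe_coe, aeval_X]

private theorem eb_lift {K V D Ω : Type} [Field K] [CommRing V] [IsDomain V] [ValuationRing V]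
    [Algebra K V] [CommRing D] [IsDomain D] [Algebra V D] [Field Ω] [IsAlgClosed Ω] [Algebra V Ω]
    [IsFractionRing V Ω] (φ : V →ₐ[K] K) (hφ : ∀ v, φ v ≠ 0 → IsUnit v)
    (hinj : Function.Injective (algebraMap V D)) (halg : ∀ d : D, IsAlgebraic V d)
    (ψ : D →+* K) (hψ : ∀ v, ψ (algebraMap V D v) = φ v) :
    ∃ z : D →ₐ[V] Ω, ∀ d, ∃ v : V, z d = algebraMap V Ω v ∧ φ v = ψ d := by
  have htf : Module.IsTorsionFree V D := Module.isTorsionFree_iff_algebraMap_injective.mpr hinj
  have hΩ : Function.Injective (algebraMap V Ω) := IsFractionRing.injective V Ω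
  have htf2 : Module.IsTorsionFree V Ω := Module.isTorsionFree_iff_algebraMap_injective.mpr hΩ
  have hA : Algebra.IsAlgebraic V D := ⟨halg⟩
  let z : D →ₐ[V] Ω := IsAlgClosed.lift
  have hz : ∀ d, z d = 0 → d = 0 := by
    intro d hd
    by_contra hne
    refine Ideal.comap_ne_bot_of_algebraic_mem (R := V) (I := RingHom.ker (z : D →+* Ω)) hne hd
      (halg d) ?_
    rw [eq_bot_iff]
    intro v hv
    rw [Ideal.mem_comap, RingHom.mem_ker] at hv
    have h1 : z (algebraMap V D v) = 0 := hv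
    rw [AlgHom.commutes] at h1
    rw [Ideal.mem_bot]
    exact hΩ (by rw [h1, map_zero])
  have key : ∀ d, ∃ v : V, z d = algebraMap V Ω v := by
    intro d
    by_cases hd0 : z d = 0
    · exact ⟨0, by rw [hd0, map_zero]⟩
    rcases ValuationRing.isInteger_or_isInteger V (z d) with h | h
    · obtain ⟨v, hv⟩ := h
      exact ⟨v, hv.symm⟩
    · obtain ⟨v, hv⟩ := h
      by_cases hv0 : φ v = 0
      · exfalso
        have h1 : z (d * algebraMap V D v - 1) = 0 := by
          rw [map_sub, map_mul, AlgHom.commutes, map_one, hv, mul_inv_cancel₀ hd0, sub_self]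
        have h2 := congrArg ψ (sub_eq_zero.mp (hz _ h1))
        rw [map_mul, hψ, hv0, mul_zero, map_one] at h2
        exact zero_ne_one h2
      · obtain ⟨u, hu⟩ := hφ v hv0
        refine ⟨((u⁻¹ : Vˣ) : V), ?_⟩
        have h1 : algebraMap V Ω ((u⁻¹ : Vˣ) : V) * algebraMap V Ω v = 1 := by
          rw [← map_mul, ← hu, Units.inv_mul, map_one]
        rw [hv] at h1
        exact (eq_of_mul_inv_eq_one h1).symm
  refine ⟨z, fun d => ?_⟩
  obtain ⟨v, hv⟩ := key d
  refine ⟨v, hv, ?_⟩
  have h1 : z (d - algebraMap V D v) = 0 := by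
    rw [map_sub, AlgHom.commutes, hv, sub_self]
  rw [sub_eq_zero.mp (hz _ h1), hψ]

theorem lift_abs {K V R Ω : Type} [Field K] [CommRing V] [IsDomain V] [ValuationRing V] [Algebra K V] [CommRing R]
    [IsDomain R] [Algebra K R] [Field Ω] [IsAlgClosed Ω] [Algebra V Ω] [IsFractionRing V Ω] [Algebra K Ω]
    [IsScalarTower K V Ω] (φ : V →ₐ[K] K) (hφ : ∀ v, φ v ≠ 0 → IsUnit v) {l : V} (hl : φ l = 0)
    (ht : Transcendental K l) {Φ : R} (hΦ : Φ ≠ 0) (hA : Alg1 K Φ) (p : R →ₐ[K] K) (hp : p Φ = 0) :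
    ∃ y : R →ₐ[K] Ω, y Φ = algebraMap V Ω l ∧ ∀ r, ∃ v : V, y r = algebraMap V Ω v ∧ φ v = p r := by
  classical
  obtain ⟨q, hq, h1, h2, h3⟩ := prime_ex φ hφ hl hΦ p hp
  have hdom : IsDomain ((V ⊗[K] R) ⧸ q) := Ideal.Quotient.isDomain q
  have hst : IsScalarTower K V ((V ⊗[K] R) ⧸ q) := inferInstance
  let ρ : R →ₐ[K] ((V ⊗[K] R) ⧸ q) :=
    (Ideal.Quotient.mkₐ K q).comp Algebra.TensorProduct.includeRight
  have hρ : ∀ r, ρ r = Ideal.Quotient.mk q ((1 : V) ⊗ₜ[K] r) := fun r => rfl
  have hV : ∀ v, algebraMap V ((V ⊗[K] R) ⧸ q) v = Ideal.Quotient.mk q (v ⊗ₜ[K] (1 : R)) :=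
    fun v => rfl
  have hρΦ : ρ Φ = algebraMap V ((V ⊗[K] R) ⧸ q) l := by
    rw [hρ, hV, Ideal.Quotient.mk_eq_mk_iff_sub_mem]
    exact h1
  have hinj : Function.Injective (algebraMap V ((V ⊗[K] R) ⧸ q)) := by
    rw [injective_iff_map_eq_zero]
    intro v hv
    by_contra hne
    rw [hV, Ideal.Quotient.eq_zero_iff_mem] at hv
    exact h2 v hne hv
  have halgρ : ∀ r, IsAlgebraic V (ρ r) := by
    intro r
    obtain ⟨G, hG, hG0⟩ := hA r
    refine eb_alg ht (ρ r) hG ?_
    rw [← hρΦ, ← map_evA, hG0, map_zero]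
  have halg : ∀ d : (V ⊗[K] R) ⧸ q, IsAlgebraic V d := by
    intro d
    obtain ⟨t, rfl⟩ := Ideal.Quotient.mk_surjective d
    induction t using TensorProduct.induction_on with
    | zero =>
      rw [map_zero]
      exact isAlgebraic_zero
    | tmul v r =>
      have h4 : Ideal.Quotient.mk q (v ⊗ₜ[K] r) = algebraMap V ((V ⊗[K] R) ⧸ q) v * ρ r := by
        rw [hV, hρ, ← map_mul, Algebra.TensorProduct.tmul_mul_tmul, mul_one, one_mul]
      rw [h4]
      exact (isAlgebraic_algebraMap v).mul (halgρ r)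
    | add x y hx hy =>
      rw [map_add]
      exact hx.add hy
  let ψ : ((V ⊗[K] R) ⧸ q) →+* K :=
    Ideal.Quotient.lift q (Algebra.TensorProduct.productMap φ p : V ⊗[K] R →+* K) h3
  have hψV : ∀ v, ψ (algebraMap V ((V ⊗[K] R) ⧸ q) v) = φ v := by
    intro v
    have h4 : ψ (algebraMap V ((V ⊗[K] R) ⧸ q) v) =
        Algebra.TensorProduct.productMap φ p (v ⊗ₜ[K] (1 : R)) := rfl
    rw [h4, Algebra.TensorProduct.productMap_apply_tmul, map_one, mul_one]
  have hψR : ∀ r, ψ (ρ r) = p r := by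
    intro r
    have h4 : ψ (ρ r) = Algebra.TensorProduct.productMap φ p ((1 : V) ⊗ₜ[K] r) := rfl
    rw [h4, Algebra.TensorProduct.productMap_apply_tmul, map_one, one_mul]
  obtain ⟨z, hz⟩ := eb_lift (Ω := Ω) φ hφ hinj halg ψ hψV
  let y : R →ₐ[K] Ω := (z.restrictScalars K).comp ρ
  have hy : ∀ r, y r = z (ρ r) := fun r => rfl
  refine ⟨y, ?_, fun r => ?_⟩
  · rw [hy, hρΦ, AlgHom.commutes]
  · obtain ⟨v, hv1, hv2⟩ := hz (ρ r)
    exact ⟨v, hv1, hv2.trans (hψR r)⟩

end H77.SN
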