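import Pool.Agent.H77.SN.Def

/-! # SN.Inj (about 40 lines)

If every element of the domain `R` is algebraic over `K[Φ]` and `y Φ` is transcendental over `K`, then `y` is injective.

Proof.  Let `y r = 0`, `r ≠ 0`, `G ≠ 0` with `evA Φ r G = 0`.  Write `G = X ^ k * G'` with `G'.coeff 0 ≠ 0` (e.g.
`Polynomial.exists_eq_pow_rootMultiplicity_mul_and_not_dvd` with root `0`, `Polynomial.X_dvd_iff`, or
`WfDvdMonoid.max_power_factor`); `evA Φ r G = r ^ k * evA Φ r G'`, so `evA Φ r G' = 0`.
Apply `y` (`map_evA`): `0 = evA (y Φ) 0 G' = aeval (y Φ) (G'.coeff 0)`, against the transcendence of `y Φ`. -/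

namespace H77.SN

open Polynomial

theorem inj_of {K Ω R : Type} [Field K] [Field Ω] [Algebra K Ω] [CommRing R] [IsDomain R] [Algebra K R] {Φ : R}
    (hA : Alg1 K Φ) (y : R →ₐ[K] Ω) (hy : Transcendental K (y Φ)) : Function.Injective y := by
  rw [injective_iff_map_eq_zero]
  intro r hr
  by_contra hr0
  obtain ⟨G, hG, hG0⟩ := hA r
  obtain ⟨q, hq, hnd⟩ := Polynomial.exists_eq_pow_rootMultiplicity_mul_and_not_dvd G hG 0
  have h1 : evA Φ r q = 0 := by
    rw [hq, map_mul, map_pow, map_sub, evA_X, evA_C, map_zero, sub_zero] at hG0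
    exact (mul_eq_zero.1 hG0).resolve_left (pow_ne_zero _ hr0)
  have h2 : aeval (y Φ) (q.coeff 0) = 0 := by
    have h3 := congrArg y h1
    rw [map_evA, hr, map_zero, evA_apply, eval₂_at_zero] at h3
    exact h3
  have h4 : q.coeff 0 = 0 := transcendental_iff.1 hy _ h2
  apply hnd
  rw [C_0, sub_zero]
  exact X_dvd_iff.2 h4

end H77.SN
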