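import Pool.Agent.H77.SN.Count
import Pool.Agent.H77.SN.Inj

/-! # SN.FinS (about 40 lines; from `count`, `inj_of`)

The set of the homomorphisms `y : R → Ω` with `y Φ = l` is finite, with at most `c` elements.

Proof.  Two different `y`, `y'` in the set differ on the union of the `F N`: there is `r` with `y r ≠ y' r`; by `hF.frac` there are `s ∈ F N`, `s ≠ 0` with
`s r ∈ F N'`; if `y = y'` on all the `F N`, then `y s * y r = y (s r) = y' (s r) = y' s * y' r` and `y s = y' s ≠ 0` (`inj_of`), so `y r = y' r`.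
If the set were infinite or had more than `c` elements there would be an injective family `Fin (c + 1) → _` in it, against `count`
(e.g. `Set.encard_le_coe_iff`, or `Set.Infinite.exists_subset_card_eq`, `Finset.exists_subset_card_eq`, `Finset.equivFin`). -/

namespace H77.SN

private lemma differ {K Ω R : Type} [Field K] [Field Ω] [Algebra K Ω] [CommRing R] [IsDomain R] [Algebra K R]
    {F : ℕ → Submodule K R} (hF : Fil K F) {Φ : R} (hA : Alg1 K Φ) {l : Ω}
    (hl : Transcendental K l) {y y' : R →ₐ[K] Ω} (hy : y Φ = l) (hne : y ≠ y') :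
    ∃ N, ∃ b ∈ F N, y b ≠ y' b := by
  by_contra hcon
  push Not at hcon
  apply hne
  ext r
  obtain ⟨N, N', s, hs, hs0, hsr⟩ := hF.frac r
  have h1 := hcon N s hs
  have h2 := hcon N' (s * r) hsr
  rw [map_mul, map_mul, ← h1] at h2
  have hinj := inj_of hA y (by rw [hy]; exact hl)
  have hys : y s ≠ 0 := fun h => hs0 (hinj (by rw [h, map_zero]))
  exact mul_left_cancel₀ hys h2

theorem fin_S {K Ω R : Type} [Field K] [Field Ω] [Algebra K Ω] [CommRing R] [IsDomain R] [Algebra K R]
    {F : ℕ → Submodule K R} (hF : Fil K F) {n c : ℕ} {Φ : R} (hΦ : Φ ∈ F n) (hΦ0 : Φ ≠ 0) (hA : Alg1 K Φ)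
    (hc : ∃ N1, ∀ N ≥ N1, Module.finrank K (F (N + n)) ≤ Module.finrank K (F N) + c) {l : Ω}
    (hl : Transcendental K l) : {y : R →ₐ[K] Ω | y Φ = l}.Finite ∧ {y : R →ₐ[K] Ω | y Φ = l}.ncard ≤ c := by
  classical
  have key : ∀ T : Finset (R →ₐ[K] Ω), (T : Set (R →ₐ[K] Ω)) ⊆ {y | y Φ = l} → T.card ≤ c := by
    intro T hT
    refine count hF hΦ hΦ0 hc hl (fun i => (T.equivFin.symm i : R →ₐ[K] Ω)) ?_ ?_
    · intro i
      exact hT (T.equivFin.symm i).2
    · intro i j hij
      refine differ hF hA hl (hT (T.equivFin.symm i).2) ?_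
      intro h
      exact hij (T.equivFin.symm.injective (Subtype.ext h))
  have hfin : {y : R →ₐ[K] Ω | y Φ = l}.Finite := by
    by_contra hinf
    obtain ⟨T, hT, hTc⟩ := Set.Infinite.exists_subset_card_eq hinf (c + 1)
    have := key T hT
    omega
  refine ⟨hfin, ?_⟩
  rw [Set.ncard_eq_toFinset_card _ hfin]
  exact key hfin.toFinset (by simp)

end H77.SN
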