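import Pool.Agent.H77.SN.Def

/-! # SN.FrP (about 60 lines): the dimension of `PN K w h N` is the number of its monomials

`0 < w`: the monomials of `PN K w h N` have `i ≤ N`, `j ≤ N`.  The linear map `PN K w h N → ({p // p ∈ S} → K)`, `q ↦ (q.coeff p.2).coeff p.1`, `S` the finite set in the definition of `DD`, is an isomorphism (the inverse is
`c ↦ ∑ p, C (C (c p) * X ^ p.1) * X ^ p.2`; or injective, and these elements give the surjectivity); `Module.finrank_fintype_fun_eq_card`. -/

namespace H77.SN

open Polynomial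

/-- the exponents of the monomials of `PN K w h N` -/
def frS (w h N : ℕ) : Finset (ℕ × ℕ) :=
  (Finset.range (N + 1) ×ˢ Finset.range (N + 1)).filter (fun p => p.1 + w * p.2 + h ≤ N)

theorem mem_frS {w h N : ℕ} (hw : 0 < w) (i j : ℕ) : (i, j) ∈ frS w h N ↔ i + w * j + h ≤ N := by
  unfold frS
  rw [Finset.mem_filter, Finset.mem_product, Finset.mem_range, Finset.mem_range]
  constructor
  · exact fun h => h.2
  · intro h1
    have : j ≤ w * j := Nat.le_mul_of_pos_left j hw
    exact ⟨⟨by simp only; omega, by simp only; omega⟩, h1⟩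

/-- the coefficients of an element of `PN K w h N` -/
noncomputable def frEv (K : Type) [Field K] (w h N : ℕ) :
    PN K w h N →ₗ[K] ({p // p ∈ frS w h N} → K) where
  toFun q := fun p => (q.1.coeff p.1.2).coeff p.1.1
  map_add' := by
    intro a b
    funext p
    simp
  map_smul' := by
    intro c a
    funext p
    simp

theorem frEv_injective (K : Type) [Field K] (w h N : ℕ) (hw : 0 < w) :
    Function.Injective (frEv K w h N) := by
  rw [injective_iff_map_eq_zero]
  intro q hq
  apply Subtype.ext
  ext j i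
  change (q.1.coeff j).coeff i = 0
  by_contra h0
  have h1 : (i, j) ∈ frS w h N := (mem_frS hw i j).mpr (q.2 i j h0)
  exact h0 (congrFun hq ⟨(i, j), h1⟩)

theorem frEv_surjective (K : Type) [Field K] (w h N : ℕ) (hw : 0 < w) :
    Function.Surjective (frEv K w h N) := by
  classical
  intro c
  obtain ⟨q, hq⟩ : ∃ q : K[X][X], q = ∑ p : {p // p ∈ frS w h N},
      monomial p.1.2 (monomial p.1.1 (c p)) := ⟨_, rfl⟩
  have hco : ∀ i j, (q.coeff j).coeff i = ∑ p : {p // p ∈ frS w h N},
      if p.1.2 = j ∧ p.1.1 = i then c p else 0 := by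
    intro i j
    rw [hq, finsetSum_coeff, finsetSum_coeff]
    refine Finset.sum_congr rfl fun p _ => ?_
    rw [coeff_monomial]
    by_cases h1 : p.1.2 = j
    · rw [if_pos h1, coeff_monomial]
      by_cases h2 : p.1.1 = i
      · rw [if_pos h2, if_pos ⟨h1, h2⟩]
      · rw [if_neg h2, if_neg fun h => h2 h.2]
    · rw [if_neg h1, if_neg fun h => h1 h.1, coeff_zero]
  have hmem : q ∈ PN K w h N := by
    intro i j hij
    rw [hco] at hij
    obtain ⟨p, -, hp⟩ := Finset.exists_ne_zero_of_sum_ne_zero hij
    have h1 : p.1.2 = j ∧ p.1.1 = i := by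
      by_contra h1
      exact hp (if_neg h1)
    have h2 := p.2
    have h3 : p.1 = (i, j) := Prod.ext h1.2 h1.1
    rw [h3] at h2
    exact (mem_frS hw i j).mp h2
  refine ⟨⟨q, hmem⟩, ?_⟩
  funext p
  change (q.coeff p.1.2).coeff p.1.1 = c p
  rw [hco, Finset.sum_eq_single p]
  · rw [if_pos ⟨rfl, rfl⟩]
  · intro b _ hb
    apply if_neg
    rintro ⟨h1, h2⟩
    exact hb (Subtype.ext (Prod.ext h2 h1))
  · intro h
    exact absurd (Finset.mem_univ p) h

/-- `PN K w h N` is the space of functions on its set of exponents -/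
noncomputable def frEquiv (K : Type) [Field K] (w h N : ℕ) (hw : 0 < w) :
    PN K w h N ≃ₗ[K] ({p // p ∈ frS w h N} → K) :=
  LinearEquiv.ofBijective (frEv K w h N) ⟨frEv_injective K w h N hw, frEv_surjective K w h N hw⟩

theorem fin_PN (K : Type) [Field K] (w h N : ℕ) (hw : 0 < w) : FiniteDimensional K (PN K w h N) :=
  LinearEquiv.finiteDimensional (frEquiv K w h N hw).symm

theorem finrank_PN (K : Type) [Field K] (w h N : ℕ) (hw : 0 < w) : Module.finrank K (PN K w h N) = DD w h N := by
  rw [(frEquiv K w h N hw).finrank_eq, Module.finrank_fintype_fun_eq_card, Fintype.card_coe]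
  rfl

end H77.SN
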