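import Pool.Agent.H77.SN.Wd
import Pool.Agent.H77.SN.FrP

/-! # SN.Im (about 80 lines; from `PN_div`, `finrank_PN`): the dimension of the image of `PN K w h N` in `R`

`R` a `K`-algebra, the kernel of `evA τ ξ` is the ideal `(g)`, `g` of weighted degree exactly `e`.  `LL τ ξ η : q ↦ η * q(τ, ξ)` as a linear map (`η` not a zero divisor).
The kernel of `LL` restricted to `PN K w h N` is `{g q' : q' ∈ PN K w (h + e) N}` (`PN_mul`, `PN_div`), isomorphic to `PN K w (h + e) N` by multiplication with `g`; `LinearMap.finrank_range_add_finrank_ker`, `finrank_PN`. -/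

namespace H77.SN

open Polynomial

/-- the linear map `q ↦ η * q(τ, ξ)` -/
noncomputable def LL {K R : Type} [Field K] [CommRing R] [Algebra K R] (τ ξ η : R) : K[X][X] →ₗ[K] R :=
  LinearMap.mulLeft K η ∘ₗ (evA τ ξ).toLinearMap

theorem LL_apply {K R : Type} [Field K] [CommRing R] [Algebra K R] (τ ξ η : R) (q : K[X][X]) :
    LL τ ξ η q = η * evA τ ξ q := rfl

private theorem im_finrank {K V W : Type} [Field K] [AddCommGroup V] [Module K V]
    [AddCommGroup W] [Module K W] (f : V →ₗ[K] W) (hf : Function.Injective f) (p : Submodule K V) :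
    Module.finrank K (p.map f) = Module.finrank K p :=
  (LinearEquiv.finrank_eq (Submodule.equivMapOfInjective f hf p)).symm

private theorem im_rank {K V W : Type} [Field K] [AddCommGroup V] [Module K V]
    [AddCommGroup W] [Module K W] (f : V →ₗ[K] W) (p : Submodule K V) [FiniteDimensional K p] :
    Module.finrank K (p.map f) + Module.finrank K (p ⊓ LinearMap.ker f : Submodule K V) =
      Module.finrank K p := by
  have h1 := LinearMap.finrank_range_add_finrank_ker (f.domRestrict p)
  rw [LinearMap.range_domRestrict] at h1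
  have h2 : (LinearMap.ker (f.domRestrict p)).map p.subtype = p ⊓ LinearMap.ker f := by
    ext x
    constructor
    · rintro ⟨⟨q, hq⟩, hqk, rfl⟩
      exact ⟨hq, hqk⟩
    · rintro ⟨hx, hxk⟩
      exact ⟨⟨x, hx⟩, hxk, rfl⟩
  rw [← h2, im_finrank _ (Submodule.injective_subtype p)]
  exact h1

theorem finrank_im {K R : Type} [Field K] [CommRing R] [Algebra K R] {τ ξ η : R} {g : K[X][X]} {w e : ℕ}
    (hw : 0 < w) (hg0 : g ≠ 0) (hg : g ∈ PN K w 0 e) (hg' : ∀ e' < e, g ∉ PN K w 0 e')
    (hker : ∀ q : K[X][X], η * evA τ ξ q = 0 ↔ g ∣ q) (h N : ℕ) :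
    Module.finrank K ((PN K w h N).map (LL τ ξ η)) + DD w (h + e) N = DD w h N := by
  classical
  have hfin := fin_PN K w h N hw
  have hmulPN : ∀ q' ∈ PN K w (h + e) N, g * q' ∈ PN K w h N := by
    intro q' hq' i j hij
    have h1 := PN_mul hg hq' i j hij
    omega
  have hker2 : PN K w h N ⊓ LinearMap.ker (LL τ ξ η) =
      (PN K w (h + e) N).map (LinearMap.mulLeft K g) := by
    ext x
    constructor
    · rintro ⟨hq, hqk⟩
      have h1 : η * evA τ ξ x = 0 := hqk
      obtain ⟨q', hq'⟩ := (hker x).1 h1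
      refine ⟨q', ?_, hq'.symm⟩
      rw [hq'] at hq
      exact PN_div hg0 hg hg' hq
    · rintro ⟨q', hq', rfl⟩
      exact ⟨hmulPN q' hq', (hker (g * q')).2 (dvd_mul_right g q')⟩
  have hinj : Function.Injective (LinearMap.mulLeft K g) := by
    intro a b hab
    exact mul_left_cancel₀ hg0 hab
  have h2 := im_rank (LL τ ξ η) (PN K w h N)
  rw [hker2, im_finrank _ hinj, finrank_PN K w (h + e) N hw, finrank_PN K w h N hw] at h2
  exact h2

end H77.SN
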