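import Pool.Agent.H77.SN.Sat

/-! # SN.Pr (about 40 lines; from `sat`)

Same setting as in `Sat`, and `p : R → K` a homomorphism with `p Φ = 0`.  There is a prime ideal `q` of `V ⊗ R` which contains `1 ⊗ Φ - l ⊗ 1`, contains no `v ⊗ 1` with
`v ≠ 0`, and is contained in the kernel of `ψ = φ ⊗ p : V ⊗ R → K`.

Proof.  `T = {v • s : v ≠ 0, ψ s ≠ 0}` is a multiplicative set (`V` a domain, `K` a field).  It is disjoint from the ideal generated by `1 ⊗ Φ - l ⊗ 1`: if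
`v • s = (1 ⊗ Φ - l ⊗ 1) b`, then `s = (1 ⊗ Φ - l ⊗ 1) b'` by `sat` and `ψ s = (p Φ - φ l) ψ b' = 0`.  `Ideal.exists_le_prime_disjoint` gives `q`.
`v ⊗ 1 = v • 1 ∈ T`, and an `a` with `ψ a ≠ 0` is in `T` (`v = 1`). -/

namespace H77.SN

open TensorProduct

theorem prime_ex {K V R : Type} [Field K] [CommRing V] [IsDomain V] [ValuationRing V] [Algebra K V] [CommRing R]
    [IsDomain R] [Algebra K R] (φ : V →ₐ[K] K) (hφ : ∀ v, φ v ≠ 0 → IsUnit v) {l : V} (hl : φ l = 0) {Φ : R}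
    (hΦ : Φ ≠ 0) (p : R →ₐ[K] K) (hp : p Φ = 0) :
    ∃ q : Ideal (V ⊗[K] R), q.IsPrime ∧ ((1 : V) ⊗ₜ[K] Φ - l ⊗ₜ[K] (1 : R)) ∈ q ∧
      (∀ v : V, v ≠ 0 → v ⊗ₜ[K] (1 : R) ∉ q) ∧ ∀ a ∈ q, Algebra.TensorProduct.productMap φ p a = 0 := by
  set ψ : V ⊗[K] R →ₐ[K] K := Algebra.TensorProduct.productMap φ p with hψ
  set d : V ⊗[K] R := (1 : V) ⊗ₜ[K] Φ - l ⊗ₜ[K] (1 : R) with hd
  have hψd : ψ d = 0 := by
    rw [hψ, hd, map_sub, Algebra.TensorProduct.productMap_apply_tmul,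
      Algebra.TensorProduct.productMap_apply_tmul, map_one, hp, hl]
    simp
  let T : Submonoid (V ⊗[K] R) :=
    { carrier := {x | ∃ v : V, v ≠ 0 ∧ ∃ s : V ⊗[K] R, ψ s ≠ 0 ∧ x = v • s}
      one_mem' := ⟨1, one_ne_zero, 1, by rw [map_one]; exact one_ne_zero, by rw [one_smul]⟩
      mul_mem' := by
        rintro _ _ ⟨v, hv, s, hs, rfl⟩ ⟨v', hv', s', hs', rfl⟩
        refine ⟨v * v', mul_ne_zero hv hv', s * s', ?_, ?_⟩
        · rw [map_mul]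
          exact mul_ne_zero hs hs'
        · rw [smul_mul_smul_comm] }
  have hdis : Disjoint ((Ideal.span {d} : Ideal (V ⊗[K] R)) : Set (V ⊗[K] R)) (T : Set (V ⊗[K] R)) := by
    rw [Set.disjoint_left]
    rintro x hx ⟨v, hv, s, hs, rfl⟩
    rw [SetLike.mem_coe, Ideal.mem_span_singleton] at hx
    obtain ⟨b, hb⟩ := hx
    obtain ⟨b', hb'⟩ := sat φ hφ hl hΦ hv hb
    apply hs
    rw [hb', map_mul]
    rw [hψd, zero_mul]
  obtain ⟨q, hq, hIq, hqT⟩ := Ideal.exists_le_prime_disjoint _ T hdis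
  refine ⟨q, hq, hIq (Ideal.subset_span rfl), ?_, ?_⟩
  · intro v hv hmem
    refine Set.disjoint_left.1 hqT hmem ⟨v, hv, 1, by rw [map_one]; exact one_ne_zero, ?_⟩
    rw [Algebra.TensorProduct.one_def, TensorProduct.smul_tmul', smul_eq_mul, mul_one]
  · intro a ha
    by_contra hne
    exact Set.disjoint_left.1 hqT ha ⟨1, one_ne_zero, a, hne, by rw [one_smul]⟩

end H77.SN
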