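import Mathlib

/-! # SN.Sat (MATHLIB only, about 80 lines)

`V` a valuation ring (a `K`-algebra) with a `K`-algebra homomorphism `φ : V → K` whose kernel is the set of nonunits, `R` a domain and a `K`-algebra, `l ∈ V`
with `φ l = 0`, `Φ ∈ R`, `Φ ≠ 0`.  In `V ⊗ R`: if `v s` is divisible by `1 ⊗ Φ - l ⊗ 1`, `v ≠ 0` in `V`, then `s` is divisible by `1 ⊗ Φ - l ⊗ 1`.

Proof.  `V ⊗ R` is a free `V`-module with the basis `1 ⊗ e i` (`Module.Free.chooseBasis`, `Algebra.TensorProduct.basis V e`).  Let `v s = (1 ⊗ Φ - l ⊗ 1) b`.  If `b = 0` then `v s = 0`, `s = 0`.  Otherwise let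
`b0` be a coefficient `≠ 0` of `b` which divides all the coefficients (the finitely many coefficients of `b` are totally ordered by divisibility,
`ValuationRing.dvd_total`), so `b = b0 b'` with `b'` having one coefficient equal to `1`.  The map `ρ = φ ⊗ id : V ⊗ R → K ⊗ R = R`
(`Algebra.TensorProduct.lift` / `productMap` of `v ↦ algebraMap (φ v)` and `id`) maps an element with coefficients `a i` to `∑ φ (a i) e i`, so `ρ b' ≠ 0` and
`ρ ((1 ⊗ Φ - l ⊗ 1) b') = Φ ρ b' ≠ 0`; hence a coefficient of `(1 ⊗ Φ - l ⊗ 1) b'` at some `i` is a unit `ε`.  Compare the coefficients at `i` in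
`v s = b0 ((1 ⊗ Φ - l ⊗ 1) b')`: `v s_i = b0 ε`, so `b0 = v b0'`, and `s = (1 ⊗ Φ - l ⊗ 1) (b0' b')` after cancelling `v` (`V` is a domain, the module is free). -/

namespace H77.SN

open TensorProduct

private theorem exists_dvd_min {ι V : Type} [CommRing V] [IsDomain V] [ValuationRing V] (f : ι → V)
    (S : Finset ι) (hS : S.Nonempty) : ∃ i ∈ S, ∀ j ∈ S, f i ∣ f j := by
  classical
  induction hS using Finset.Nonempty.cons_induction with
  | singleton a =>
    refine ⟨a, Finset.mem_singleton_self a, fun j hj => ?_⟩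
    rw [Finset.mem_singleton.mp hj]
  | cons a s ha hs ih =>
    obtain ⟨i, hi, hdiv⟩ := ih
    rcases ValuationRing.dvd_total (f i) (f a) with h | h
    · refine ⟨i, Finset.mem_cons_of_mem hi, fun j hj => ?_⟩
      rcases Finset.mem_cons.mp hj with rfl | hj
      · exact h
      · exact hdiv j hj
    · refine ⟨a, Finset.mem_cons_self a s, fun j hj => ?_⟩
      rcases Finset.mem_cons.mp hj with rfl | hj
      · exact dvd_rfl
      · exact h.trans (hdiv j hj)

private theorem repr_productMap {K V R ι : Type} [Field K] [CommRing V] [Algebra K V] [CommRing R]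
    [Algebra K R] (φ : V →ₐ[K] K) (e : Module.Basis ι K R) (y : V ⊗[K] R) (i : ι) :
    e.repr (Algebra.TensorProduct.productMap ((Algebra.ofId K R).comp φ) (AlgHom.id K R) y) i =
      φ ((Algebra.TensorProduct.basis V e).repr y i) := by
  induction y using TensorProduct.induction_on with
  | zero => simp
  | tmul a m =>
    rw [Algebra.TensorProduct.productMap_apply_tmul, Algebra.TensorProduct.basis_repr_tmul]
    simp only [AlgHom.coe_comp, Function.comp_apply, Algebra.ofId_apply, AlgHom.coe_id, id_eq,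
      Finsupp.smul_apply, Finsupp.mapRange_apply, smul_eq_mul, map_mul, AlgHom.commutes]
    rw [← Algebra.smul_def, map_smul, Finsupp.smul_apply, smul_eq_mul]
    rfl
  | add y₁ y₂ h₁ h₂ => simp only [map_add, Finsupp.add_apply, h₁, h₂]

theorem sat {K V R : Type} [Field K] [CommRing V] [IsDomain V] [ValuationRing V] [Algebra K V] [CommRing R]
    [IsDomain R] [Algebra K R] (φ : V →ₐ[K] K) (hφ : ∀ v, φ v ≠ 0 → IsUnit v) {l : V} (hl : φ l = 0) {Φ : R}
    (hΦ : Φ ≠ 0) {v : V} (hv : v ≠ 0) {s b : V ⊗[K] R}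
    (h : v • s = ((1 : V) ⊗ₜ[K] Φ - l ⊗ₜ[K] (1 : R)) * b) :
    ∃ b', s = ((1 : V) ⊗ₜ[K] Φ - l ⊗ₜ[K] (1 : R)) * b' := by
  classical
  set e := Module.Free.chooseBasis K R with he
  set B := Algebra.TensorProduct.basis V e with hB
  set ρ := Algebra.TensorProduct.productMap ((Algebra.ofId K R).comp φ) (AlgHom.id K R) with hρ
  set P : V ⊗[K] R := (1 : V) ⊗ₜ[K] Φ - l ⊗ₜ[K] (1 : R) with hP
  have hcancel : ∀ y z : V ⊗[K] R, v • y = v • z → y = z := by
    intro y z hyz
    apply B.repr.injective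
    ext i
    have h1 := congrArg (fun t => B.repr t i) hyz
    simp only [map_smul, Finsupp.smul_apply, smul_eq_mul] at h1
    exact mul_left_cancel₀ hv h1
  by_cases hb : b = 0
  · refine ⟨0, hcancel _ _ ?_⟩
    rw [h, hb, mul_zero, smul_zero]
  have hsupp : (B.repr b).support.Nonempty := by
    rw [Finsupp.support_nonempty_iff]
    intro h0
    exact hb (B.repr.injective (by rw [h0, map_zero]))
  obtain ⟨i0, hi0, hmin⟩ := exists_dvd_min (fun i => B.repr b i) _ hsupp
  have hb0 : B.repr b i0 ≠ 0 := Finsupp.mem_support_iff.mp hi0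
  have hall : ∀ i, ∃ q, B.repr b i = B.repr b i0 * q := by
    intro i
    by_cases hi : i ∈ (B.repr b).support
    · exact hmin i hi
    · exact ⟨0, by rw [Finsupp.notMem_support_iff.mp hi, mul_zero]⟩
  choose q hq using hall
  let g : Module.Free.ChooseBasisIndex K R →₀ V :=
    Finsupp.onFinset (B.repr b).support q (fun i hi => by
      rw [Finsupp.mem_support_iff, hq i]
      exact mul_ne_zero hb0 hi)
  have hg : ∀ i, g i = q i := fun i => rfl
  let b' : V ⊗[K] R := B.repr.symm g
  have hb' : B.repr b' = g := LinearEquiv.apply_symm_apply _ _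
  have hbb : b = B.repr b i0 • b' := by
    apply B.repr.injective
    ext i
    rw [map_smul, Finsupp.smul_apply, hb', hg, smul_eq_mul, ← hq i]
  have hq1 : q i0 = 1 := by
    have h1 := hq i0
    exact (mul_left_cancel₀ hb0 (by rw [mul_one]; exact h1)).symm
  have hρb : ρ b' ≠ 0 := by
    intro h0
    have h1 := repr_productMap φ e b' i0
    rw [← hρ, h0, ← hB, hb', hg, hq1, map_zero, map_one, Finsupp.zero_apply] at h1
    exact zero_ne_one h1
  have hρP : ρ P = Φ := by
    rw [hP, map_sub, hρ, Algebra.TensorProduct.productMap_apply_tmul,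
      Algebra.TensorProduct.productMap_apply_tmul]
    simp [hl]
  have hne : ρ (P * b') ≠ 0 := by
    rw [map_mul, hρP]
    exact mul_ne_zero hΦ hρb
  obtain ⟨i, hi⟩ : ∃ i, e.repr (ρ (P * b')) i ≠ 0 := by
    by_contra hcon
    push Not at hcon
    apply hne
    apply e.repr.injective
    ext i
    rw [hcon i, map_zero, Finsupp.zero_apply]
  rw [hρ, repr_productMap φ e, ← hB] at hi
  obtain ⟨ε, hε⟩ := hφ _ hi
  have heq : v • s = B.repr b i0 • (P * b') := by
    rw [h]
    conv_lhs => rw [hbb]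
    rw [mul_smul_comm]
  have hco : v * B.repr s i = B.repr b i0 * (ε : V) := by
    have h1 := congrArg (fun t => B.repr t i) heq
    simp only [map_smul, Finsupp.smul_apply, smul_eq_mul] at h1
    rw [h1, hε]
  have hb0v : B.repr b i0 = v * (B.repr s i * ((ε⁻¹ : Vˣ) : V)) := by
    rw [← mul_assoc, hco, mul_assoc, Units.mul_inv, mul_one]
  refine ⟨(B.repr s i * ((ε⁻¹ : Vˣ) : V)) • b', hcancel _ _ ?_⟩
  rw [heq, hb0v, mul_smul_comm, smul_smul]

end H77.SN
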