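import Mathlib

/-! # SN.Surj (MATHLIB only, about 40 lines)

`f g : X → Y` linear maps of finite dimensional `K`-spaces, `f` injective, `l ∈ Ω` transcendental over `K`: then
`ψ ↦ ψ ∘ f - l · (ψ ∘ g)`, `Hom_K(Y, Ω) → Hom_K(X, Ω)`, is surjective.

Proof.  `r : Y → X` with `r ∘ f = id` (`LinearMap.exists_leftInverse_of_injective`), `G = r ∘ g : X → X`.  With `ψ = ψ' ∘ r` it is enough
that `T : ψ' ↦ ψ' - l · (ψ' ∘ G)`, an `Ω`-linear endomorphism of the finite dimensional `Ω`-space `X →ₗ[K] Ω`, is surjective,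
hence (`LinearMap.injective_iff_surjective`) that it is injective.  Let `ψ' = l · (ψ' ∘ G)`.  Then `ψ' ∘ G = l⁻¹ · ψ'`, so
`ψ' ∘ q(G) = q(l⁻¹) · ψ'` for every polynomial `q` over `K` (`Polynomial.induction_on` or sums).  With `q = minpoly K G` (or `G.charpoly`,
`LinearMap.aeval_self_charpoly`), monic, `q(G) = 0` and `q(l⁻¹) ≠ 0` as `l⁻¹` is transcendental (`l` is algebraic if `l⁻¹` is; `l ≠ 0`). -/

namespace H77.SN

theorem surj {K Ω X Y : Type} [Field K] [Field Ω] [Algebra K Ω] [AddCommGroup X] [Module K X] [FiniteDimensional K X]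
    [AddCommGroup Y] [Module K Y] (f g : X →ₗ[K] Y) (hf : Function.Injective f) {l : Ω}
    (hl : Transcendental K l) (θ : X →ₗ[K] Ω) : ∃ ψ : Y →ₗ[K] Ω, ∀ x, ψ (f x) - l * ψ (g x) = θ x := by
  classical
  obtain ⟨r, hr⟩ := LinearMap.exists_leftInverse_of_injective f (LinearMap.ker_eq_bot.2 hf)
  let G : X →ₗ[K] X := r ∘ₗ g
  let T : (X →ₗ[K] Ω) →ₗ[Ω] (X →ₗ[K] Ω) :=
    { toFun := fun ψ => ψ - l • (ψ ∘ₗ G)
      map_add' := by
        intro a b
        ext x
        simp only [LinearMap.sub_apply, LinearMap.add_apply, LinearMap.smul_apply,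
          LinearMap.comp_apply, smul_eq_mul]
        ring
      map_smul' := by
        intro c a
        ext x
        simp only [LinearMap.sub_apply, LinearMap.smul_apply,
          LinearMap.comp_apply, smul_eq_mul, RingHom.id_apply]
        ring }
  have hT : ∀ (ψ : X →ₗ[K] Ω) (x : X), T ψ x = ψ x - l * ψ (G x) := fun ψ x => rfl
  have : FiniteDimensional Ω (X →ₗ[K] Ω) :=
    Module.Finite.equiv ((Module.finBasis K X).constr Ω : _ ≃ₗ[Ω] (X →ₗ[K] Ω))
  have hl0 : l ≠ 0 := by
    rintro rfl
    exact hl isAlgebraic_zero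
  have hinj : Function.Injective T := by
    rw [← LinearMap.ker_eq_bot, LinearMap.ker_eq_bot']
    intro ψ hψ
    have h1 : ∀ x, ψ (G x) = l⁻¹ * ψ x := by
      intro x
      have h2 := hT ψ x
      rw [hψ, LinearMap.zero_apply] at h2
      have h3 : ψ x = l * ψ (G x) := (sub_eq_zero.1 h2.symm)
      rw [h3, inv_mul_cancel_left₀ hl0]
    have h4 : ∀ (q : Polynomial K) (x : X), ψ ((Polynomial.aeval G q) x)
        = Polynomial.aeval l⁻¹ q * ψ x := by
      intro q
      induction q using Polynomial.induction_on with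
      | C a =>
        intro x
        simp [Algebra.smul_def]
      | add p q hp hq =>
        intro x
        simp only [map_add, LinearMap.add_apply, hp x, hq x]
        ring
      | monomial n a hn =>
        intro x
        have h5 : (Polynomial.C a * Polynomial.X ^ (n + 1) : Polynomial K)
            = (Polynomial.C a * Polynomial.X ^ n) * Polynomial.X := by
          rw [pow_succ, mul_assoc]
        rw [h5, map_mul (Polynomial.aeval G) _ Polynomial.X,
          map_mul (Polynomial.aeval l⁻¹) _ Polynomial.X, Polynomial.aeval_X, Polynomial.aeval_X]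
        show ψ ((Polynomial.aeval G (Polynomial.C a * Polynomial.X ^ n)) (G x)) = _
        rw [hn (G x), h1 x]
        ring
    have h6 : Polynomial.aeval l⁻¹ (minpoly K G) ≠ 0 := by
      intro h7
      have h8 : IsAlgebraic K l⁻¹ := ⟨minpoly K G, minpoly.ne_zero (Algebra.IsIntegral.isIntegral G), h7⟩
      have h9 := h8.inv
      rw [inv_inv] at h9
      exact hl h9
    ext x
    have h10 := h4 (minpoly K G) x
    rw [minpoly.aeval, LinearMap.zero_apply, map_zero] at h10
    exact (mul_eq_zero.1 h10.symm).resolve_left h6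
  have hsurj : Function.Surjective T := LinearMap.injective_iff_surjective.1 hinj
  obtain ⟨ψ, hψ⟩ := hsurj θ
  refine ⟨ψ ∘ₗ r, fun x => ?_⟩
  have h11 : r (f x) = x := LinearMap.congr_fun hr x
  show ψ (r (f x)) - l * ψ (r (g x)) = θ x
  rw [h11, ← hψ, hT]
  rfl

end H77.SN
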