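import Pool.Agent.H77.SN.Def

/-! # SN.Wd (about 80 lines): weighted degrees

`PN_mul`: coefficients of a product (`coeff_mul`, sums over antidiagonals, twice).  `PN_div`: `g` has weighted degree exactly `e`, `g q` has all its monomials with `i + w j + h ≤ N`; then all the monomials of `q`
have `i + w j + h + e ≤ N`.

Proof of `PN_div`.  Let `θ : K[X][X] → K[X][X][X]` be the ring homomorphism with `t ↦ t S`, `x ↦ x S^w` (`S` the new outer variable; e.g. `evA (C (C X) * X) (C X * X ^ w)`); the coefficient of `S^k` of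
`θ q` is the sum of the monomials of `q` with `i + w j = k`, so `natDegree (θ q)` is the largest `i + w j` of a monomial of `q ≠ 0`, and `θ q ≠ 0` for `q ≠ 0`.  `natDegree_mul` in the domain `K[X][X][X]`.
(Or directly: take the monomials of `g` and of `q` with the largest `i + w j`, and among them the largest `j`; the coefficient of their product in `g q` is one product.) -/

namespace H77.SN

open Polynomial

private theorem exTop {K : Type} [Field K] (w : ℕ) {q : K[X][X]} (hq : q ≠ 0) :
    ∃ i j, (q.coeff j).coeff i ≠ 0 ∧ ∀ i' j', (q.coeff j').coeff i' ≠ 0 →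
      i' + w * j' < i + w * j ∨ (i' + w * j' = i + w * j ∧ j' ≤ j) := by
  classical
  let s : Finset (ℕ × ℕ) := q.support.biUnion (fun j => (q.coeff j).support.image (fun i => (i, j)))
  have hs : ∀ i j, (i, j) ∈ s ↔ (q.coeff j).coeff i ≠ 0 := by
    intro i j
    simp only [s, Finset.mem_biUnion, Finset.mem_image, mem_support_iff, Prod.mk.injEq]
    constructor
    · rintro ⟨j1, -, i1, h2, h3, h4⟩
      subst h3; subst h4; exact h2
    · intro h
      refine ⟨j, ?_, i, h, rfl, rfl⟩
      intro h0
      apply h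
      rw [h0, coeff_zero]
  have hne : s.Nonempty := by
    obtain ⟨j, hj⟩ : ∃ j, q.coeff j ≠ 0 := by
      by_contra hcon
      push Not at hcon
      exact hq (Polynomial.ext (by simpa using hcon))
    obtain ⟨i, hi⟩ : ∃ i, (q.coeff j).coeff i ≠ 0 := by
      by_contra hcon
      push Not at hcon
      exact hj (Polynomial.ext (by simpa using hcon))
    exact ⟨(i, j), (hs i j).2 hi⟩
  obtain ⟨⟨i, j⟩, hm, hmax⟩ := Finset.exists_max_image s
    (fun p : ℕ × ℕ => (toLex (p.1 + w * p.2, p.2) : ℕ ×ₗ ℕ)) hne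
  refine ⟨i, j, (hs i j).1 hm, ?_⟩
  intro i' j' h'
  have h1 := hmax (i', j') ((hs i' j').2 h')
  rw [Prod.Lex.toLex_le_toLex] at h1
  exact h1

theorem PN_mul {K : Type} [Field K] {w a b M N : ℕ} {q r : K[X][X]} (hq : q ∈ PN K w a M) (hr : r ∈ PN K w b N) :
    q * r ∈ PN K w (a + b) (M + N) := by
  rw [mem_PN] at hq hr ⊢
  intro i j hij
  rw [coeff_mul, finsetSum_coeff] at hij
  obtain ⟨x, hx, hx0⟩ := Finset.exists_ne_zero_of_sum_ne_zero hij
  rw [coeff_mul] at hx0
  obtain ⟨y, hy, hy0⟩ := Finset.exists_ne_zero_of_sum_ne_zero hx0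
  have h1 := hq y.1 x.1 (left_ne_zero_of_mul hy0)
  have h2 := hr y.2 x.2 (right_ne_zero_of_mul hy0)
  rw [Finset.HasAntidiagonal.mem_antidiagonal] at hx hy
  rw [← hx, ← hy, mul_add]
  omega

theorem PN_div {K : Type} [Field K] {w e h N : ℕ} {g q : K[X][X]} (hg0 : g ≠ 0) (hg : g ∈ PN K w 0 e)
    (hg' : ∀ e' < e, g ∉ PN K w 0 e') (hgq : g * q ∈ PN K w h N) : q ∈ PN K w (h + e) N := by
  by_cases hq0 : q = 0
  · rw [hq0]; exact Submodule.zero_mem _
  obtain ⟨i1, j1, h1, h1m⟩ := exTop w hg0
  obtain ⟨i2, j2, h2, h2m⟩ := exTop w hq0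
  have he : e ≤ i1 + w * j1 := by
    by_contra hcon
    push Not at hcon
    refine hg' _ hcon ?_
    rw [mem_PN]
    intro i j hij
    rcases h1m i j hij with h | ⟨h, -⟩ <;> omega
  have hc : ((g * q).coeff (j1 + j2)).coeff (i1 + i2) = (g.coeff j1).coeff i1 * (q.coeff j2).coeff i2 := by
    rw [coeff_mul, finsetSum_coeff]
    rw [Finset.sum_eq_single (j1, j2)]
    · rw [coeff_mul, Finset.sum_eq_single (i1, i2)]
      · rintro ⟨a, b⟩ hab hne
        rw [Finset.HasAntidiagonal.mem_antidiagonal] at hab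
        dsimp only at hab ⊢
        by_contra hcon
        have ha := h1m a j1 (left_ne_zero_of_mul hcon)
        have hb := h2m b j2 (right_ne_zero_of_mul hcon)
        apply hne
        rw [Prod.mk.injEq]
        constructor <;> omega
      · intro hcon
        exact absurd (Finset.HasAntidiagonal.mem_antidiagonal.2 (by rfl)) hcon
    · rintro ⟨c, d⟩ hcd hne
      rw [Finset.HasAntidiagonal.mem_antidiagonal] at hcd
      dsimp only at hcd ⊢
      rw [coeff_mul]
      refine Finset.sum_eq_zero ?_
      rintro ⟨a, b⟩ hab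
      rw [Finset.HasAntidiagonal.mem_antidiagonal] at hab
      dsimp only at hab ⊢
      by_contra hcon
      have ha := h1m a c (left_ne_zero_of_mul hcon)
      have hb := h2m b d (right_ne_zero_of_mul hcon)
      have hw : w * c + w * d = w * j1 + w * j2 := by rw [← mul_add, ← mul_add, hcd]
      apply hne
      rw [Prod.mk.injEq]
      constructor <;> omega
    · intro hcon
      exact absurd (Finset.HasAntidiagonal.mem_antidiagonal.2 (by rfl)) hcon
  have h3 := (mem_PN.1 hgq) (i1 + i2) (j1 + j2) (by rw [hc]; exact mul_ne_zero h1 h2)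
  rw [mul_add] at h3
  rw [mem_PN]
  intro i j hij
  rcases h2m i j hij with h | ⟨h, -⟩ <;> omega

end H77.SN
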